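import Pool.Agent.Helper64.UD.GlueM

/-!
# UD: units and the trivial bound, with moving forms
-/

set_option autoImplicit false
set_option linter.unusedSectionVars false

namespace Pool.Agent.UD

open NumberField IntermediateField Pool.Agent.Helper64.Vojta Pool.Agent.VZ Pool.Agent.SL Pool.Agent.EXP

universe u

variable {k : Type u} [Field k] [NumberField k]

/-- the sum of the local heights of the coefficients -/
noncomputable def BB {L : Type u} [Field L] [NumberField L] [Algebra k L] {q m : ℕ} (ℓ : Fin q → Fin m → k)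
    (w : Pl L) : ℝ := ∑ i, ∑ a, Real.log (sn w ![algebraMap k L (ℓ i a), 1])

section

variable {L : Type u} [Field L] [NumberField L] [Algebra k L] {q m : ℕ}

theorem one_le_sn_two (w : Pl L) (z : L) : 1 ≤ sn w ![z, 1] := by
  rw [sn_two]
  exact le_max_right _ _

theorem BB_nonneg (ℓ : Fin q → Fin m → k) (w : Pl L) : 0 ≤ BB ℓ w :=
  Finset.sum_nonneg fun _ _ => Finset.sum_nonneg fun _ _ => Real.log_nonneg (one_le_sn_two _ _)

theorem nv_le_BB (ℓ : Fin q → Fin m → k) (w : Pl L) (i : Fin q) (a : Fin m) :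
    nv w (algebraMap k L (ℓ i a)) ≤ Real.exp (BB ℓ w) := by
  have h1 : Real.log (sn w ![algebraMap k L (ℓ i a), 1]) ≤ BB ℓ w :=
    (Finset.single_le_sum (f := fun a => Real.log (sn w ![algebraMap k L (ℓ i a), 1]))
      (fun _ _ => Real.log_nonneg (one_le_sn_two _ _)) (Finset.mem_univ a)).trans
      (Finset.single_le_sum (f := fun i => ∑ a, Real.log (sn w ![algebraMap k L (ℓ i a), 1]))
        (fun _ _ => Finset.sum_nonneg fun _ _ => Real.log_nonneg (one_le_sn_two _ _)) (Finset.mem_univ i))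
  have h2 := zero_lt_one.trans_le (one_le_sn_two w (algebraMap k L (ℓ i a)))
  calc nv w (algebraMap k L (ℓ i a)) ≤ sn w ![algebraMap k L (ℓ i a), 1] := le_sn w ![algebraMap k L (ℓ i a), 1] 0
    _ = Real.exp (Real.log (sn w ![algebraMap k L (ℓ i a), 1])) := (Real.exp_log h2).symm
    _ ≤ _ := Real.exp_le_exp.2 h1

theorem sum_BB_le (ℓ : Fin q → Fin m → k) (W : Finset (Pl L)) :
    ∑ w ∈ W, BB ℓ w ≤ Module.finrank k L * hF ℓ := by
  unfold BB hF
  rw [Finset.sum_comm, Finset.mul_sum]
  refine Finset.sum_le_sum fun i _ => ?_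
  rw [Finset.sum_comm, Finset.mul_sum]
  refine Finset.sum_le_sum fun a _ => ?_
  refine (sum_le_logHeight (cons_one_ne _) (fun w => one_le_sn_two w _) W).trans (le_of_eq ?_)
  have h1 : (![algebraMap k L (ℓ i a), 1] : Fin 2 → L) = fun j => algebraMap k L ((![ℓ i a, 1] : Fin 2 → k) j) := by
    funext j
    fin_cases j
    · rfl
    · exact (map_one _).symm
  rw [h1, Pool.Agent.Helper52.Vojta.logHeight_algebraMap (cons_one_ne _), ← Height.logHeight₁_eq_logHeight]

theorem prod_formula_sum {y : L} (hy : y ≠ 0) (W : Finset (Pl L)) (hW1 : ∀ w : InfinitePlace L, Sum.inl w ∈ W)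
    (hW2 : ∀ w : FinitePlace L, Real.log (nv (.inr w) y) ≠ 0 → Sum.inr w ∈ W) :
    ∑ w ∈ W, Real.log (nv w y) = 0 := by
  classical
  rw [← product_formula_log hy, ← Finset.toLeft_disjSum_toRight (u := W), Finset.sum_disjSum]
  symm
  congr 1
  · refine Finset.sum_subset (Finset.subset_univ _) ?_ |>.symm
    intro w _ hw
    exact absurd (Finset.mem_toLeft.mpr (hW1 w)) hw
  · rw [finsum_eq_sum_of_support_subset]
    intro w hw
    rw [Finset.mem_coe, Finset.mem_toRight]
    exact hW2 w hw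

/-- the constant at an infinite place -/
noncomputable def K0 (m : ℕ) : ℝ := Real.log ((m + 1 : ℝ) ^ 2)

theorem K0_nonneg (m : ℕ) : 0 ≤ K0 m := by
  have : (0 : ℝ) ≤ m := Nat.cast_nonneg _
  exact Real.log_nonneg (by nlinarith)

/-- the local terms, made nonnegative -/
noncomputable def gM (ℓ : Fin q → Fin m → k) (x : Fin m → L) (i : Fin q) (w : Pl L) : ℝ :=
  loc w (cst (ℓ i)) x + BB ℓ w + (match w with | .inl _ => K0 m | .inr _ => 0)

/-- the total constant -/
noncomputable def cM (r : ℕ) (ℓ : Fin q → Fin m → k) : ℝ := r * hF ℓ + (Module.finrank ℚ k * r : ℕ) * K0 m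

theorem cM_nonneg (r : ℕ) (ℓ : Fin q → Fin m → k) : 0 ≤ cM r ℓ :=
  add_nonneg (mul_nonneg (Nat.cast_nonneg _) (hF_nonneg _)) (mul_nonneg (Nat.cast_nonneg _) (K0_nonneg _))

theorem cM_le (r : ℕ) (ℓ : Fin q → Fin m → k) :
    cM r ℓ ≤ (r + (Module.finrank ℚ k * r : ℕ) * K0 m) * (1 + hF ℓ) := by
  unfold cM
  have h1 := hF_nonneg ℓ
  have h2 : 0 ≤ ((Module.finrank ℚ k * r : ℕ) : ℝ) * K0 m := mul_nonneg (Nat.cast_nonneg _) (K0_nonneg _)
  have h3 : (0 : ℝ) ≤ r := Nat.cast_nonneg _
  nlinarith [mul_nonneg h2 h1]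

theorem gM_props (ℓ : Fin q → Fin m → k) {r : ℕ} (hr : Module.finrank k L ≤ r) (x : Fin m → L) (hx : x ≠ 0)
    (i : Fin q) (hax : ev (cst (ℓ i)) x ≠ 0) :
    (∀ w, 0 ≤ gM ℓ x i w) ∧ (∀ W : Finset (Pl L), ∑ w ∈ W, gM ℓ x i w ≤ Height.logHeight x + cM r ℓ) ∧
      ∀ w, loc w (cst (ℓ i)) x ≤ gM ℓ x i w + cM r ℓ := by
  classical
  have hm0 : (0 : ℝ) ≤ m := Nat.cast_nonneg _
  have hpos : ∀ w, 0 ≤ gM ℓ x i w := by
    intro w
    have h0 : ∀ j ∈ (Finset.univ : Finset (Fin m)), nv w ((cst (ℓ i) : Fin m → L) j * x j) ≤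
        Real.exp (BB ℓ w) * sn w x := fun j _ => by
      rw [nv_mul]
      exact mul_le_mul (nv_le_BB ℓ w i j) (le_sn _ _ _) (nv_nonneg _ _) (Real.exp_pos _).le
    have h00 : 0 ≤ Real.exp (BB ℓ w) * sn w x := mul_nonneg (Real.exp_pos _).le (sn_pos w hx).le
    unfold gM
    rcases w with w | w
    · have h1 := nv_sum_le (.inl w) Finset.univ (fun j => (cst (ℓ i) : Fin m → L) j * x j) _ h00 h0
      rw [Finset.card_univ, Fintype.card_fin] at h1
      have h2 := Real.log_le_log (nv_pos (.inl w) hax) h1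
      rw [Real.log_mul (by positivity) (mul_pos (Real.exp_pos _) (sn_pos (.inl w) hx)).ne',
        Real.log_mul (Real.exp_pos _).ne' (sn_pos (.inl w) hx).ne', Real.log_exp] at h2
      show 0 ≤ loc (.inl w) (cst (ℓ i)) x + BB ℓ (.inl w) + K0 m
      simp only [loc, K0]
      linarith
    · have h1 := nv_sum_le_inr w Finset.univ (fun j => (cst (ℓ i) : Fin m → L) j * x j) _ h00 h0
      have h2 := Real.log_le_log (nv_pos (.inr w) hax) h1
      rw [Real.log_mul (Real.exp_pos _).ne' (sn_pos (.inr w) hx).ne', Real.log_exp] at h2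
      show 0 ≤ loc (.inr w) (cst (ℓ i)) x + BB ℓ (.inr w) + 0
      simp only [loc]
      linarith
  refine ⟨hpos, fun W => ?_, fun w => ?_⟩
  · have hfs1 : (Function.support fun w : FinitePlace L => Real.log (sn (.inr w) x)).Finite :=
      log_support _ (fin_support_sn hx)
    have hfs2 : (Function.support fun w : FinitePlace L => Real.log (nv (.inr w) (ev (cst (ℓ i)) x))).Finite :=
      log_support _ (fin_support_nv hax)
    set W' : Finset (Pl L) := W ∪ (Finset.univ.image Sum.inl ∪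
      (hfs1.toFinset.image Sum.inr ∪ hfs2.toFinset.image Sum.inr)) with hW'
    have hWW : ∑ w ∈ W, gM ℓ x i w ≤ ∑ w ∈ W', gM ℓ x i w :=
      Finset.sum_le_sum_of_subset_of_nonneg Finset.subset_union_left fun w _ _ => hpos w
    have hinl : ∀ w : InfinitePlace L, Sum.inl w ∈ W' := by
      intro w
      simp [hW']
    have e1 := Pool.Agent.Helper52.Vojta.logHeight_eq_sum hx W' hinl (by
      intro w hw
      simp only [hW', Finset.mem_union, Finset.mem_image, Set.Finite.mem_toFinset]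
      right; right; left
      exact ⟨w, hw, rfl⟩)
    have e2 := prod_formula_sum hax W' hinl (by
      intro w hw
      simp only [hW', Finset.mem_union, Finset.mem_image, Set.Finite.mem_toFinset]
      right; right; right
      exact ⟨w, hw, rfl⟩)
    have e3 := sum_BB_le (L := L) ℓ W'
    have e4 : ∑ w ∈ W', (match w with | .inl _ => K0 m | .inr _ => (0 : ℝ)) ≤
        Fintype.card (InfinitePlace L) * K0 m := by
      rw [← Finset.toLeft_disjSum_toRight (u := W'), Finset.sum_disjSum]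
      simp only [Finset.sum_const_zero, add_zero, Finset.sum_const, nsmul_eq_mul]
      refine mul_le_mul_of_nonneg_right ?_ (K0_nonneg m)
      exact_mod_cast Finset.card_le_univ _
    have e5 : (Fintype.card (InfinitePlace L) : ℝ) * K0 m ≤ (Module.finrank ℚ k * r : ℕ) * K0 m :=
      mul_le_mul_of_nonneg_right (by exact_mod_cast card_inf_le' hr) (K0_nonneg m)
    have e6 : (Module.finrank k L : ℝ) * hF ℓ ≤ r * hF ℓ :=
      mul_le_mul_of_nonneg_right (by exact_mod_cast hr) (hF_nonneg _)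
    have e7 : ∑ w ∈ W', gM ℓ x i w = (∑ w ∈ W', Real.log (sn w x) - ∑ w ∈ W', Real.log (nv w (ev (cst (ℓ i)) x))) +
        ∑ w ∈ W', BB ℓ w + ∑ w ∈ W', (match w with | .inl _ => K0 m | .inr _ => (0 : ℝ)) := by
      rw [← Finset.sum_sub_distrib, ← Finset.sum_add_distrib, ← Finset.sum_add_distrib]
      rfl
    unfold cM
    linarith
  · have h1 := BB_nonneg ℓ w
    have h2 := K0_nonneg m
    have h3 := cM_nonneg r ℓ
    unfold gM
    rcases w with w | w
    · show _ ≤ loc (.inl w) (cst (ℓ i)) x + BB ℓ (.inl w) + K0 m + _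
      linarith
    · show _ ≤ loc (.inr w) (cst (ℓ i)) x + BB ℓ (.inr w) + 0 + _
      linarith

end

/-- The core estimate, with moving forms. -/
theorem core_m (S : Finset (Pl k)) {n q : ℕ} (r : ℕ) (ℓ : Fin q → Fin (n + 1) → k) (y : Fin n → AlgebraicClosure k)
    (E : ℝ) (hdg : dg y ≤ r) (hE : 0 ≤ E) (hne : ∀ i, ev (cst (ℓ i)) (crd y) ≠ 0)
    (hy : q * hgt y - E ≤ lam ℓ S y) (i i' : Fin q) :
    Height.logHeight₁ (Algebra.norm k (ev (cst (ℓ i)) (crd y) / ev (cst (ℓ i')) (crd y))) ≤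
          (r : ℝ) * hgt y + (cM r ℓ + 2 * (q * cM r ℓ + q * cM r ℓ * (r * S.card))) ∧
        ∀ T : Finset (FinitePlace k), (∀ v ∈ T, (Sum.inr v : Pl k) ∉ S) →
          ∑ v ∈ T, |Real.log (v (Algebra.norm k (ev (cst (ℓ i)) (crd y) / ev (cst (ℓ i')) (crd y))))| ≤
            2 * (r : ℝ) * E + (cM r ℓ + 2 * (q * cM r ℓ + q * cM r ℓ * (r * S.card))) := by
  classical
  set K' := cM r ℓ with hK'def
  have hK' : 0 ≤ K' := cM_nonneg r ℓ
  set A : ℝ := q * K' + q * K' * (r * S.card) with hA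
  have hA0 : 0 ≤ A := by positivity
  set x := crd y with hx
  have hx0 : x ≠ 0 := crd_ne y
  have hdgp := dg_pos' y
  have hdgr : (dg y : ℝ) ≤ r := by exact_mod_cast hdg
  have hhgt : (dg y : ℝ) * hgt y = Height.logHeight x := by
    unfold hgt
    rw [mul_div_cancel₀ _ hdgp.ne']
  have hh0 : 0 ≤ hgt y := div_nonneg (Height.logHeight_nonneg _) hdgp.le
  have hfd : FiniteDimensional k (fld y) :=
    finiteDimensional_adjoin fun x _ => Algebra.IsIntegral.isIntegral x
  set G : Fin q → Pl (fld y) → ℝ := fun i w => gM ℓ x i w with hG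
  have hg := fun i => gM_props (L := fld y) ℓ hdg x hx0 i (hne i)
  have hg0 : ∀ i w, 0 ≤ G i w := fun i w => (hg i).1 w
  have hgW : ∀ i (W : Finset (Pl (fld y))), ∑ w ∈ W, G i w ≤ Height.logHeight x + K' :=
    fun i => (hg i).2.1
  have hgl : ∀ i w, loc w (cst (ℓ i)) x ≤ G i w + K' := fun i => (hg i).2.2
  set z : fld y := ev (cst (ℓ i)) x / ev (cst (ℓ i')) x with hz
  have hz0 : z ≠ 0 := div_ne_zero (hne i) (hne i')
  have hlz : ∀ w, Real.log (nv w z) = G i' w - G i w := by
    intro w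
    have h1 : nv w z = nv w (ev (cst (ℓ i)) x) / nv w (ev (cst (ℓ i')) x) := by
      rw [hz, div_eq_mul_inv, nv_mul, nv_inv, ← div_eq_mul_inv]
    rw [h1, Real.log_div (nv_pos w (hne i)).ne' (nv_pos w (hne i')).ne']
    simp only [hG, gM, loc]
    ring
  constructor
  · refine (logHeight₁_norm_le (k := k) z).trans ?_
    rw [Height.logHeight₁_eq_logHeight]
    have h1 : Height.logHeight ![z, 1] ≤ Height.logHeight x + K' := by
      refine logHeight_le_of (cons_one_ne z) (G i') _ (fun w => ?_) (hgW i')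
      rw [sn_two]
      rcases le_total (nv w z) 1 with h | h
      · rw [max_eq_right h, Real.log_one]
        exact hg0 i' w
      · rw [max_eq_left h, hlz]
        linarith [hg0 i w]
    refine h1.trans ?_
    rw [← hhgt]
    have h2 : (dg y : ℝ) * hgt y ≤ r * hgt y := mul_le_mul_of_nonneg_right hdgr hh0
    have h3 : 0 ≤ (r : ℝ) := Nat.cast_nonneg _
    nlinarith [mul_nonneg hK' hh0, mul_nonneg hA0 hh0, mul_nonneg h3 hh0]
  · intro T hT
    -- the places
    have hdisj : ∀ S' : Finset (Pl k), (S' : Set (Pl k)).PairwiseDisjoint (above (fld y)) := by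
      intro S' a _ b _ hab
      rw [Function.onFun, Finset.disjoint_left]
      intro w hwa hwb
      exact hab (above_unique (mem_above.mp hwa) (mem_above.mp hwb))
    set T' : Finset (Pl k) := T.image Sum.inr with hT'
    have hST : Disjoint S T' := by
      rw [Finset.disjoint_right]
      intro v hv hvS
      obtain ⟨v', hv', rfl⟩ := Finset.mem_image.mp hv
      exact hT v' hv' hvS
    have hcard : ((S.biUnion (above (fld y))).card : ℝ) ≤ r * S.card := by
      have h1 : (S.biUnion (above (fld y))).card ≤ ∑ ν ∈ S, (above (fld y) ν).card :=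
        Finset.card_biUnion_le
      have h2 : ∑ ν ∈ S, (above (fld y) ν).card ≤ ∑ ν ∈ S, r :=
        Finset.sum_le_sum fun ν _ => (card_above_le ν).trans hdg
      rw [Finset.sum_const, smul_eq_mul, mul_comm] at h2
      exact_mod_cast h1.trans h2
    have hlam : (dg y : ℝ) * lam ℓ S y = ∑ i, ∑ w' ∈ S.biUnion (above (fld y)), loc w' (cst (ℓ i)) x := by
      unfold lam
      rw [mul_div_cancel₀ _ hdgp.ne', Finset.sum_comm (s := Finset.univ), Finset.sum_biUnion (hdisj S)]
      rfl
    have hlam2 : (dg y : ℝ) * lam ℓ S y ≤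
        ∑ i, ∑ w' ∈ S.biUnion (above (fld y)), G i w' + q * K' * (r * S.card) := by
      rw [hlam]
      have h1 : ∑ i, ∑ w' ∈ S.biUnion (above (fld y)), loc w' (cst (ℓ i)) x ≤
          ∑ i, ∑ w' ∈ S.biUnion (above (fld y)), (G i w' + K') :=
        Finset.sum_le_sum fun i _ => Finset.sum_le_sum fun w _ => hgl i w
      refine h1.trans ?_
      simp only [Finset.sum_add_distrib, Finset.sum_const, Finset.card_univ, Fintype.card_fin, nsmul_eq_mul]
      have h2 : (q : ℝ) * (((S.biUnion (above (fld y))).card : ℝ) * K') ≤ q * (r * S.card * K') :=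
        mul_le_mul_of_nonneg_left (mul_le_mul_of_nonneg_right hcard hK') (Nat.cast_nonneg _)
      linarith
    have hall : ∑ i, ∑ w' ∈ (S ∪ T').biUnion (above (fld y)), G i w' ≤
        q * (Height.logHeight x + K') := by
      refine (Finset.sum_le_sum fun i _ => hgW i _).trans (le_of_eq ?_)
      rw [Finset.sum_const, Finset.card_univ, Fintype.card_fin, nsmul_eq_mul]
    have hsplit : ∑ i, ∑ w' ∈ (S ∪ T').biUnion (above (fld y)), G i w' =
        ∑ i, ∑ w' ∈ S.biUnion (above (fld y)), G i w' + ∑ i, ∑ w' ∈ T'.biUnion (above (fld y)), G i w' := by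
      rw [← Finset.sum_add_distrib]
      refine Finset.sum_congr rfl fun i _ => ?_
      rw [Finset.sum_biUnion (hdisj _), Finset.sum_union hST, Finset.sum_biUnion (hdisj _),
        Finset.sum_biUnion (hdisj _)]
    have hT1 : ∑ i, ∑ w' ∈ T'.biUnion (above (fld y)), G i w' ≤ r * E + A := by
      have h1 : (dg y : ℝ) * (q * hgt y - E) ≤ dg y * lam ℓ S y := mul_le_mul_of_nonneg_left hy hdgp.le
      have h2 : (dg y : ℝ) * E ≤ r * E := mul_le_mul_of_nonneg_right hdgr hE
      rw [hA]
      rw [hsplit] at hall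
      rw [← hhgt] at hall
      nlinarith
    have hT2 : ∑ v ∈ T, |Real.log (v (Algebra.norm k z))| ≤
        ∑ w' ∈ T'.biUnion (above (fld y)), (G i w' + G i' w') := by
      rw [Finset.sum_biUnion (hdisj _), hT', Finset.sum_image (fun a _ b _ h => Sum.inr_injective h)]
      refine Finset.sum_le_sum fun v _ => ?_
      have h1 : v (Algebra.norm k z) = nv (.inr v) (Algebra.norm k z) := rfl
      rw [h1, Pool.Agent.Helper52.Vojta.nv_norm, Real.log_prod (fun w _ => (nv_pos w hz0).ne')]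
      refine (Finset.abs_sum_le_sum_abs _ _).trans (Finset.sum_le_sum fun w _ => ?_)
      rw [hlz, abs_le]
      have := hg0 i w
      have := hg0 i' w
      constructor <;> linarith
    have hT3 : ∀ i, ∑ w' ∈ T'.biUnion (above (fld y)), G i w' ≤ r * E + A := fun i =>
      (Finset.single_le_sum (f := fun i => ∑ w' ∈ T'.biUnion (above (fld y)), G i w')
        (fun i _ => Finset.sum_nonneg fun w _ => hg0 i w) (Finset.mem_univ i)).trans hT1
    refine hT2.trans ?_
    rw [Finset.sum_add_distrib]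
    have h4 := hT3 i
    have h5 := hT3 i'
    have h3 : 0 ≤ (r : ℝ) := Nat.cast_nonneg _
    nlinarith [mul_nonneg hK' hE, mul_nonneg hA0 hE, mul_nonneg h3 hE]


/-- the constant of `core_m` -/
theorem const_le (S : Finset (Pl k)) {n q : ℕ} (r : ℕ) (ℓ : Fin q → Fin (n + 1) → k) :
    cM r ℓ + 2 * (q * cM r ℓ + q * cM r ℓ * (r * S.card)) ≤
      ((1 + 2 * (q + q * (r * S.card))) * (r + (Module.finrank ℚ k * r : ℕ) * K0 (n + 1))) * (1 + hF ℓ) := by
  have h1 := cM_le r ℓ
  have h2 : (0 : ℝ) ≤ 1 + 2 * (q + q * (r * S.card)) := by positivity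
  calc cM r ℓ + 2 * (q * cM r ℓ + q * cM r ℓ * (r * S.card)) = (1 + 2 * (q + q * (r * S.card))) * cM r ℓ := by ring
    _ ≤ (1 + 2 * (q + q * (r * S.card))) * ((r + (Module.finrank ℚ k * r : ℕ) * K0 (n + 1)) * (1 + hF ℓ)) :=
      mul_le_mul_of_nonneg_left h1 h2
    _ = _ := by ring

/-- Points of degree `r`, with moving forms. -/
theorem units_plus_m (S : Finset (Pl k)) {n q : ℕ} (r : ℕ) (i₀ : Fin q) : UnitsM k S r n q i₀ := by
  classical
  set c : ℝ := (1 + 2 * (q + q * (r * S.card))) * (r + (Module.finrank ℚ k * r : ℕ) * K0 (n + 1)) with hcdef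
  have hc : 0 ≤ c := mul_nonneg (by positivity)
    (add_nonneg (Nat.cast_nonneg _) (mul_nonneg (Nat.cast_nonneg _) (K0_nonneg _)))
  refine ⟨c, hc, fun ℓ y E hdg hE hne hy => ?_⟩
  have hfd : FiniteDimensional k (fld y) :=
    finiteDimensional_adjoin fun x _ => Algebra.IsIntegral.isIntegral x
  set x := crd y with hx
  set t : Fin q → fld y := fun i => ev (cst (ℓ i)) x with ht
  have ht0 : ∀ i, t i ≠ 0 := hne
  have hc1 := const_le S r ℓ
  have hc2 := core_m S r ℓ y E hdg.le hE hne hy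
  -- the embeddings
  have hcard : Fintype.card (fld y →ₐ[k] AlgebraicClosure k) = r := by
    rw [AlgHom.card, ← hdg]
    rfl
  let e : Fin r ≃ (fld y →ₐ[k] AlgebraicClosure k) := (Fintype.equivFinOfCardEq hcard).symm
  let φ : fld y →ₐ[k] AlgebraicClosure k := (fld y).val
  have hlin : ∀ (σ : fld y →ₐ[k] AlgebraicClosure k) (i : Fin q),
      ∑ j, algebraMap k (AlgebraicClosure k) (ℓ i j) * σ (x j / t i₀) = σ (t i / t i₀) := by
    intro σ i
    have h1 : t i / t i₀ = ∑ j, algebraMap k (fld y) (ℓ i j) * (x j / t i₀) := by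
      simp only [ht, ev, cst, Finset.sum_div, mul_div_assoc]
    rw [h1, map_sum]
    exact Finset.sum_congr rfl fun j _ => by rw [map_mul, AlgHom.commutes]
  refine ⟨fun s j => e s (x j / t i₀), e.symm φ, φ (t i₀)⁻¹, fun i => Algebra.norm k (t i / t i₀),
    ?_, ?_, ?_, ?_, ?_, ?_, ?_⟩
  · rw [Ne, map_eq_zero_iff φ φ.injective]
    exact inv_ne_zero (ht0 i₀)
  · intro j
    show e (e.symm φ) (x j / t i₀) = _
    rw [Equiv.apply_symm_apply, div_eq_mul_inv, map_mul, mul_comm]
    congr 1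
    refine Fin.cases ?_ (fun j => ?_) j
    · rw [Fin.cons_zero]
      show φ (crd y 0) = 1
      have : crd y 0 = 1 := rfl
      rw [this, map_one]
    · rfl
  · intro s
    show ∑ j, algebraMap k (AlgebraicClosure k) (ℓ i₀ j) * e s (x j / t i₀) = 1
    rw [hlin, div_self (ht0 i₀), map_one]
  · intro i
    refine ⟨?_, ?_⟩
    · rw [Ne, Algebra.norm_eq_zero_iff]
      exact div_ne_zero (ht0 i) (ht0 i₀)
    · rw [Algebra.norm_eq_prod_embeddings k (AlgebraicClosure k) (t i / t i₀)]
      rw [← Equiv.prod_comp e]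
      exact Finset.prod_congr rfl fun s _ => (hlin _ _).symm
  · exact fun i => (hc2 i i₀).1.trans (by linarith)
  · exact fun i T hT => ((hc2 i i₀).2 T hT).trans (by linarith)
  · intro s d f hf h0
    have hφ : (Fin.cons 1 y : Fin (n + 1) → AlgebraicClosure k) = fun j => φ (x j) := by
      funext j
      refine Fin.cases ?_ (fun j => ?_) j
      · rw [Fin.cons_zero]
        show _ = φ (crd y 0)
        have : crd y 0 = 1 := rfl
        rw [this, map_one]
      · rfl
    have h1 : MvPolynomial.aeval x f = 0 := by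
      rw [hφ, ← MvPolynomial.comp_aeval_apply] at h0
      exact (map_eq_zero_iff φ φ.injective).mp h0
    show MvPolynomial.aeval (fun j => e s (x j / t i₀)) f = 0
    rw [← MvPolynomial.comp_aeval_apply]
    have h2 : (fun j => x j / t i₀) = fun j => (t i₀)⁻¹ * x j := by
      funext j
      rw [div_eq_mul_inv, mul_comm]
    rw [h2, Pool.Agent.Helper64.GS.aeval_scale hf, h1, mul_zero, map_zero]


theorem lam_le_m (S : Finset (Pl k)) {n q : ℕ} (r : ℕ) : LamM k S r n q := by
  classical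
  set c : ℝ := (1 + 2 * (q + q * (r * S.card))) * (r + (Module.finrank ℚ k * r : ℕ) * K0 (n + 1)) with hcdef
  have hc : 0 ≤ c := mul_nonneg (by positivity)
    (add_nonneg (Nat.cast_nonneg _) (mul_nonneg (Nat.cast_nonneg _) (K0_nonneg _)))
  refine ⟨c, hc, fun ℓ y hdg hne => ?_⟩
  set K' := cM r ℓ with hK'def
  have hK' : 0 ≤ K' := cM_nonneg r ℓ
  have hc1 := const_le S r ℓ
  set A : ℝ := q * K' + q * K' * (r * S.card) with hA
  have hA0 : 0 ≤ A := by positivity
  suffices hs : lam ℓ S y ≤ q * hgt y + A by linarith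
  set x := crd y with hx
  have hx0 : x ≠ 0 := crd_ne y
  have hdgp := dg_pos' y
  have hhgt : (dg y : ℝ) * hgt y = Height.logHeight x := by
    unfold hgt
    rw [mul_div_cancel₀ _ hdgp.ne']
  have hfd : FiniteDimensional k (fld y) :=
    finiteDimensional_adjoin fun x _ => Algebra.IsIntegral.isIntegral x
  have hdg1 : (1 : ℝ) ≤ dg y := by
    have : 0 < Module.finrank k (fld y) := Module.finrank_pos
    exact_mod_cast this
  set G : Fin q → Pl (fld y) → ℝ := fun i w => gM ℓ x i w with hG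
  have hg := fun i => gM_props (L := fld y) ℓ hdg x hx0 i (hne i)
  have hgW : ∀ i (W : Finset (Pl (fld y))), ∑ w ∈ W, G i w ≤ Height.logHeight x + K' :=
    fun i => (hg i).2.1
  have hgl : ∀ i w, loc w (cst (ℓ i)) x ≤ G i w + K' := fun i => (hg i).2.2
  have hdisj : ∀ S' : Finset (Pl k), (S' : Set (Pl k)).PairwiseDisjoint (above (fld y)) := by
    intro S' a _ b _ hab
    rw [Function.onFun, Finset.disjoint_left]
    intro w hwa hwb
    exact hab (above_unique (mem_above.mp hwa) (mem_above.mp hwb))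
  have hcard : ((S.biUnion (above (fld y))).card : ℝ) ≤ r * S.card := by
    have h1 : (S.biUnion (above (fld y))).card ≤ ∑ ν ∈ S, (above (fld y) ν).card :=
      Finset.card_biUnion_le
    have h2 : ∑ ν ∈ S, (above (fld y) ν).card ≤ ∑ ν ∈ S, r :=
      Finset.sum_le_sum fun ν _ => (card_above_le ν).trans hdg
    rw [Finset.sum_const, smul_eq_mul, mul_comm] at h2
    exact_mod_cast h1.trans h2
  have hlam : (dg y : ℝ) * lam ℓ S y = ∑ i, ∑ w' ∈ S.biUnion (above (fld y)), loc w' (cst (ℓ i)) x := by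
    unfold lam
    rw [mul_div_cancel₀ _ hdgp.ne', Finset.sum_comm (s := Finset.univ), Finset.sum_biUnion (hdisj S)]
    rfl
  have hlam2 : (dg y : ℝ) * lam ℓ S y ≤
      ∑ i, ∑ w' ∈ S.biUnion (above (fld y)), G i w' + q * K' * (r * S.card) := by
    rw [hlam]
    have h1 : ∑ i, ∑ w' ∈ S.biUnion (above (fld y)), loc w' (cst (ℓ i)) x ≤
        ∑ i, ∑ w' ∈ S.biUnion (above (fld y)), (G i w' + K') :=
      Finset.sum_le_sum fun i _ => Finset.sum_le_sum fun w _ => hgl i w
    refine h1.trans ?_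
    simp only [Finset.sum_add_distrib, Finset.sum_const, Finset.card_univ, Fintype.card_fin, nsmul_eq_mul]
    have h2 : (q : ℝ) * (((S.biUnion (above (fld y))).card : ℝ) * K') ≤ q * (r * S.card * K') :=
      mul_le_mul_of_nonneg_left (mul_le_mul_of_nonneg_right hcard hK') (Nat.cast_nonneg _)
    linarith
  have hall : ∑ i, ∑ w' ∈ S.biUnion (above (fld y)), G i w' ≤ q * (Height.logHeight x + K') := by
    refine (Finset.sum_le_sum fun i _ => hgW i _).trans (le_of_eq ?_)
    rw [Finset.sum_const, Finset.card_univ, Fintype.card_fin, nsmul_eq_mul]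
  rw [← hhgt] at hall
  have h1 : (dg y : ℝ) * lam ℓ S y ≤ dg y * (q * hgt y) + A := by
    rw [hA]
    linarith
  have h2 : (dg y : ℝ) * lam ℓ S y ≤ dg y * (q * hgt y + A) := by
    rw [mul_add]
    nlinarith
  exact le_of_mul_le_mul_left h2 hdgp


end Pool.Agent.UD
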