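import Pool.Agent.Helper77.AU.Germs
import Pool.Agent.Helper77.PC.Ultra

/-!
# UD: families of number fields

`k i`, `i : J`, is a family of number fields, `W` an ultrafilter on `J`, `U` an ultrafilter on `ℕ`. A family `a p`, `p = (i, j)`, has
values in `k i`. `PU W U` is the ultrafilter on `J × ℕ`: for almost all `i`, for almost all `j`. `t i j` is a scale. A family is slow
if its height is at most `η t` for all `η > 0`, and consists of almost units if the part outside `S i` is at most `η t`.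
-/

set_option autoImplicit false

namespace Pool.Agent.UD

open NumberField Filter Topology
open Pool.Agent.V2 Pool.Agent.Helper77.AU
open Pool.Agent.Helper64.Vojta (Pl nv nv_nonneg nv_mul nv_one nv_zero nv_pos nv_inv)

universe u

variable {J : Type u} (W : Ultrafilter J) (U : Ultrafilter ℕ)

/-- for almost all `i`, for almost all `j` -/
def PU : Ultrafilter (J × ℕ) := W.bind fun i => U.map (Prod.mk i)

theorem ev_iff {p : J × ℕ → Prop} :
    (∀ᶠ x in (PU W U : Filter (J × ℕ)), p x) ↔ ∀ᶠ i in (W : Filter J), ∀ᶠ j in (U : Filter ℕ), p (i, j) :=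
  Iff.rfl

variable {k : J → Type u} [∀ i, Field (k i)] [∀ i, NumberField (k i)] (S : ∀ i, Finset (FinitePlace (k i)))
  (t : J → ℕ → ℝ)

/-- slow families -/
def Slw (a : ∀ p : J × ℕ, k p.1) : Prop :=
  ∀ η : ℝ, 0 < η → ∀ᶠ p in (PU W U : Filter (J × ℕ)), Height.logHeight₁ (a p) ≤ η * t p.1 p.2

/-- almost units -/
def AUf (a : ∀ p : J × ℕ, k p.1) : Prop :=
  (∀ᶠ p in (PU W U : Filter (J × ℕ)), a p ≠ 0) ∧
    ∀ η : ℝ, 0 < η → ∀ᶠ p in (PU W U : Filter (J × ℕ)), out (S p.1) (a p) ≤ η * t p.1 p.2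

/-- almost integers -/
def AIf (a : ∀ p : J × ℕ, k p.1) : Prop :=
  ∀ η : ℝ, 0 < η → ∀ᶠ p in (PU W U : Filter (J × ℕ)), pos (S p.1) (a p) ≤ η * t p.1 p.2

/-- the scale tends to infinity for every `i` -/
def Sc : Prop := ∀ i, Tendsto (t i) U atTop

variable {W U S t}

theorem Sc.ge (ht : Sc U t) (C : J → ℝ) : ∀ᶠ p in (PU W U : Filter (J × ℕ)), C p.1 ≤ t p.1 p.2 :=
  (ev_iff W U).2 (Eventually.of_forall fun i => (ht i).eventually_ge_atTop (C i))

theorem Sc.pos (ht : Sc U t) : ∀ᶠ p in (PU W U : Filter (J × ℕ)), 0 < t p.1 p.2 :=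
  (ev_iff W U).2 (Eventually.of_forall fun i => (ht i).eventually_gt_atTop 0)

/-- constants (depending on `i`) are small -/
theorem Sc.small (ht : Sc U t) (C : J → ℝ) {η : ℝ} (hη : 0 < η) :
    ∀ᶠ p in (PU W U : Filter (J × ℕ)), C p.1 ≤ η * t p.1 p.2 := by
  filter_upwards [ht.ge (W := W) fun i => C i / η] with p hp
  rwa [div_le_iff₀' hη] at hp

/-! ## slow families -/

theorem Slw.congr {a b : ∀ p : J × ℕ, k p.1} (ha : Slw W U t a)
    (h : ∀ᶠ p in (PU W U : Filter (J × ℕ)), a p = b p) : Slw W U t b := by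
  intro η hη
  filter_upwards [ha η hη, h] with p h1 h2
  rwa [← h2]

theorem Slw.mul {a b : ∀ p : J × ℕ, k p.1} (ha : Slw W U t a) (hb : Slw W U t b) :
    Slw W U t (fun p => a p * b p) := by
  intro η hη
  filter_upwards [ha (η / 2) (half_pos hη), hb (η / 2) (half_pos hη)] with p h1 h2
  refine (Height.logHeight₁_mul_le _ _).trans ?_
  linarith

theorem Slw.inv {a : ∀ p : J × ℕ, k p.1} (ha : Slw W U t a) : Slw W U t (fun p => (a p)⁻¹) := by
  intro η hη
  filter_upwards [ha η hη] with p h1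
  rwa [Height.logHeight₁_inv]

theorem Slw.div {a b : ∀ p : J × ℕ, k p.1} (ha : Slw W U t a) (hb : Slw W U t b) :
    Slw W U t (fun p => a p / b p) := by
  simp_rw [div_eq_mul_inv]
  exact ha.mul hb.inv

theorem Slw.cst (ht : Sc U t) (a : ∀ i, k i) : Slw W U t (fun p => a p.1) := fun _ hη =>
  ht.small (fun i => Height.logHeight₁ (a i)) hη

theorem Slw.add (ht : Sc U t) {a b : ∀ p : J × ℕ, k p.1} (ha : Slw W U t a) (hb : Slw W U t b) :
    Slw W U t (fun p => a p + b p) := by
  intro η hη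
  filter_upwards [ha (η / 3) (by positivity), hb (η / 3) (by positivity),
    ht.small (W := W) (fun i => Height.totalWeight (k i) * Real.log 2) (η := η / 3) (by positivity)] with p h1 h2 h3
  refine (Height.logHeight₁_add_le _ _).trans ?_
  linarith

/-! ## almost units -/

theorem AUf.congr {a b : ∀ p : J × ℕ, k p.1} (ha : AUf W U S t a)
    (h : ∀ᶠ p in (PU W U : Filter (J × ℕ)), a p = b p) : AUf W U S t b := by
  refine ⟨?_, fun η hη => ?_⟩
  · filter_upwards [ha.1, h] with p h1 h2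
    rwa [← h2]
  · filter_upwards [ha.2 η hη, h] with p h1 h2
    rwa [← h2]

theorem AUf.mul {a b : ∀ p : J × ℕ, k p.1} (ha : AUf W U S t a) (hb : AUf W U S t b) :
    AUf W U S t (fun p => a p * b p) := by
  refine ⟨?_, fun η hη => ?_⟩
  · filter_upwards [ha.1, hb.1] with p h1 h2
    exact mul_ne_zero h1 h2
  · filter_upwards [ha.1, hb.1, ha.2 (η / 2) (half_pos hη), hb.2 (η / 2) (half_pos hη)] with p h1 h2 h3 h4
    refine (out_mul_le (S p.1) h1 h2).trans ?_
    linarith

theorem AUf.inv {a : ∀ p : J × ℕ, k p.1} (ha : AUf W U S t a) : AUf W U S t (fun p => (a p)⁻¹) := by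
  refine ⟨?_, fun η hη => ?_⟩
  · filter_upwards [ha.1] with p h1
    exact inv_ne_zero h1
  · filter_upwards [ha.2 η hη] with p h1
    rwa [out_inv]

theorem AUf.div {a b : ∀ p : J × ℕ, k p.1} (ha : AUf W U S t a) (hb : AUf W U S t b) :
    AUf W U S t (fun p => a p / b p) := by
  simp_rw [div_eq_mul_inv]
  exact ha.mul hb.inv

theorem Slw.au {a : ∀ p : J × ℕ, k p.1} (ha : Slw W U t a)
    (h0 : ∀ᶠ p in (PU W U : Filter (J × ℕ)), a p ≠ 0) : AUf W U S t a := by
  refine ⟨h0, fun η hη => ?_⟩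
  filter_upwards [h0, ha (η / 2) (half_pos hη)] with p h1 h2
  refine (out_le (S p.1) h1).trans ?_
  linarith

theorem AUf.one (ht : Sc U t) : AUf W U S t (fun _ => 1) :=
  (Slw.cst ht fun _ => 1).au (Eventually.of_forall fun _ => one_ne_zero)

/-! ## almost integers -/

theorem AIf.of_le {a b c : ∀ p : J × ℕ, k p.1} (ha : AIf W U S t a) (hb : AIf W U S t b)
    (h : ∀ p, pos (S p.1) (c p) ≤ pos (S p.1) (a p) + pos (S p.1) (b p)) : AIf W U S t c := by
  intro η hη
  filter_upwards [ha (η / 2) (half_pos hη), hb (η / 2) (half_pos hη)] with p h1 h2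
  have := h p
  linarith

theorem AUf.aint {a : ∀ p : J × ℕ, k p.1} (ha : AUf W U S t a) : AIf W U S t a := by
  intro η hη
  filter_upwards [ha.1, ha.2 η hη] with p h1 h2
  exact (pos_le_out (S p.1) h1).trans h2

theorem Slw.aint (ht : Sc U t) {a : ∀ p : J × ℕ, k p.1} (ha : Slw W U t a) : AIf W U S t a := by
  intro η hη
  filter_upwards [ha (η / 2) (half_pos hη), ht.pos (W := W)] with p h1 h2
  by_cases h0 : a p = 0
  · rw [h0, pos_zero]
    positivity
  · refine ((pos_le_out (S p.1) h0).trans (out_le (S p.1) h0)).trans ?_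
    linarith

/-- not slow: the height is at least `c t` -/
theorem not_slw {a : ∀ p : J × ℕ, k p.1} (h : ¬ Slw W U t a) :
    ∃ c : ℝ, 0 < c ∧ ∀ᶠ p in (PU W U : Filter (J × ℕ)), c * t p.1 p.2 ≤ Height.logHeight₁ (a p) := by
  unfold Slw at h
  push Not at h
  obtain ⟨c, hc, h2⟩ := h
  refine ⟨c, hc, ?_⟩
  filter_upwards [h2] with p hp
  exact hp.le

end Pool.Agent.UD
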