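import Pool.Agent.Helper64.UD.MainM
import Pool.Agent.Helper77.UD.Norm
import Pool.Agent.Helper61.PC.Core2
import Pool.Agent.Helper36.PC.Main1

/-!
# T3 with uniform `δ` and moving sections
-/

set_option autoImplicit false

namespace Pool.Agent.UD

open NumberField IntermediateField Pool.Agent.Helper64.Vojta Pool.Agent.GS Pool.Agent.PC MvPolynomial

universe u

theorem core_all {N n q r d : ℕ} (hrd : 2 ≤ r * d) (hq : d * (r * n + 1) + r ≤ d * q) (r' : ℕ) (hr' : r' ≤ r) :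
    Core.{u} N n q r' d := by
  have hd : 1 ≤ d := Nat.pos_of_ne_zero fun h => by
    rw [h, mul_zero] at hrd
    omega
  rcases hd.eq_or_lt with rfl | hd2
  · have h1 : r' * (n + 1) ≤ r * (n + 1) := Nat.mul_le_mul_right _ hr'
    have h2 : 2 * (n + 1) ≤ r * (n + 1) := Nat.mul_le_mul_right _ (by omega)
    have h3 : r * (n + 1) = r * n + r := by ring
    refine Pool.Agent.PC36.core1 ?_ ?_ <;> omega
  · refine core2 hd2 ?_
    have h1 : d * (r' * n + 1) ≤ d * (r * n + 1) :=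
      Nat.mul_le_mul_left _ (Nat.add_le_add_right (Nat.mul_le_mul_right _ hr') _)
    omega

theorem final {k₀ : Type u} [Field k₀] [CharZero k₀] {N n r q d : ℕ} (hrd : 2 ≤ r * d)
    (hq : d * (r * n + 1) + r ≤ d * q) (I : Set (MvPolynomial (Fin (N + 1)) k₀)) (hI : Homog I) (hD : Dim k₀ I n) :
    ∃ Φ : MvPolynomial (Fin q × Sym (Fin (N + 1)) d) k₀, Φ ≠ 0 ∧ ∃ δ : ℝ, 0 < δ ∧
      ∀ (k : Type u) [Field k] [NumberField k] [Algebra k₀ k] (S : Finset (Pl k)), ∃ C : ℝ,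
        ∀ g : Fin q → Sym (Fin (N + 1)) d → k, aeval (fun p : Fin q × Sym (Fin (N + 1)) d => g p.1 p.2) Φ ≠ 0 →
            ∀ x : Fin (N + 1) → AlgebraicClosure k, (∃ j, x j = 1) → (∀ f ∈ I, aeval x f = 0) → Chart.dg x ≤ r →
              (∀ i, val (g i) x ≠ 0) →
                ∑ ν ∈ S, ∑ i, lamN (g i) ν x ≤
                  (q * d - δ) * Chart.hgt x + C * (1 + ∑ i, Height.logHeight (g i)) := by
  have hd : 1 ≤ d := Nat.pos_of_ne_zero fun h => by
    rw [h, mul_zero] at hrd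
    omega
  have hq0 : 0 < q := Nat.pos_of_ne_zero fun h => by
    rw [h, mul_zero] at hq
    have h1 : 0 < d * (r * n + 1) := Nat.mul_pos hd (Nat.succ_pos (r * n))
    omega
  obtain ⟨Φ, hΦ, δ, hδ, h⟩ := mainM (r := r) (q := q) (d := d) hd hq0
    (fun r' _ h2 => core_all hrd hq r' h2) I hI hD
  refine ⟨Φ, hΦ, δ, hδ, fun k _ _ _ S => ?_⟩
  obtain ⟨C, _, hC⟩ := h k S
  obtain ⟨C', hC'⟩ := norm_main (N := N) (d := d) Φ S (q * d - δ) C
    (fun x => (∃ j, x j = 1) ∧ (∀ f ∈ I, aeval x f = 0) ∧ Chart.dg x ≤ r)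
    (fun g hg x hx hv => hC g hg x hx.1 hx.2.1 hx.2.2 hv)
  exact ⟨C', fun g hg x h1 h2 h3 h4 => hC' g hg x ⟨h1, h2, h3⟩ h4⟩

end Pool.Agent.UD
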