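import Pool.Agent.Helper64.UD.Ind

/-!
# UD: the germs, for families of number fields

`sK`: the field of the germs of slow families; `slow_dat`: the datum over this field.
-/

set_option autoImplicit false
set_option linter.unusedSectionVars false

namespace Pool.Agent.UD

open NumberField Filter Topology
open Pool.Agent.V2 Pool.Agent.Helper77.AU Pool.Agent.PC
open Pool.Agent.Helper64.Vojta (Pl nv nv_nonneg nv_mul nv_one nv_zero nv_pos nv_inv)
open Pool.Agent.SL (Dat)

universe u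

variable {J : Type u} (W : Ultrafilter J) (U : Ultrafilter ℕ) (k : J → Type u) [∀ i, Field (k i)]
  [∀ i, NumberField (k i)] (S : ∀ i, Finset (FinitePlace (k i))) (t : J → ℕ → ℝ)

/-- the ultraproduct of the fields `k i` -/
abbrev KK : Type u := Up (PU W U) fun p => k p.1

/-- the ultraproduct of the algebraic closures -/
abbrev OO : Type u := Up (PU W U) fun p => AlgebraicClosure (k p.1)

/-- the field of slow germs -/
noncomputable def sK (ht : Sc U t) : Subfield (KK W U k) where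
  carrier := {y | ∃ a : ∀ p : J × ℕ, k p.1, Slw W U t a ∧ mk (PU W U) (fun p => k p.1) a = y}
  mul_mem' := by
    rintro _ _ ⟨a, ha, rfl⟩ ⟨b, hb, rfl⟩
    exact ⟨_, ha.mul hb, map_mul _ _ _⟩
  one_mem' := ⟨_, Slw.cst ht fun _ => 1, map_one _⟩
  add_mem' := by
    rintro _ _ ⟨a, ha, rfl⟩ ⟨b, hb, rfl⟩
    exact ⟨_, ha.add ht hb, map_add _ _ _⟩
  zero_mem' := ⟨_, Slw.cst ht fun _ => 0, map_zero _⟩
  neg_mem' := by
    rintro _ ⟨a, ha, rfl⟩
    refine ⟨fun p => (-1 : k p.1) * a p, (Slw.cst ht fun _ => -1).mul ha, ?_⟩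
    rw [← map_neg]
    congr 1
    funext p
    exact neg_one_mul _
  inv_mem' := by
    rintro _ ⟨a, ha, rfl⟩
    exact ⟨_, ha.inv, (mk_inv _ _).symm⟩

variable {W U k S t}

theorem mem_sK {ht : Sc U t} {y : KK W U k} :
    y ∈ sK W U k t ht ↔ ∃ a : ∀ p : J × ℕ, k p.1, Slw W U t a ∧ mk (PU W U) (fun p => k p.1) a = y := Iff.rfl

variable (W U k t) in
/-- the field of slow germs, as a type -/
def SKt (ht : Sc U t) : Type u := sK W U k t ht

noncomputable instance fieldSKt (ht : Sc U t) : Field (SKt W U k t ht) := inferInstanceAs (Field (sK W U k t ht))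

/-- the inclusion -/
noncomputable def incl (ht : Sc U t) : SKt W U k t ht →+* KK W U k := (sK W U k t ht).subtype

noncomputable instance algSK (ht : Sc U t) : Algebra (SKt W U k t ht) (OO W U k) :=
  ((algebraMap (KK W U k) (OO W U k)).comp (incl ht)).toAlgebra

theorem algebraMap_sK (ht : Sc U t) (z : SKt W U k t ht) :
    algebraMap (SKt W U k t ht) (OO W U k) z = algebraMap (KK W U k) (OO W U k) (incl ht z) := rfl

/-- the element of a slow family -/
noncomputable def sk (ht : Sc U t) (a : ∀ p : J × ℕ, k p.1) (ha : Slw W U t a) : SKt W U k t ht :=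
  ⟨mk (PU W U) (fun p => k p.1) a, a, ha, rfl⟩

theorem incl_sk (ht : Sc U t) (a : ∀ p : J × ℕ, k p.1) (ha : Slw W U t a) :
    incl ht (sk ht a ha) = mk (PU W U) (fun p => k p.1) a := rfl

theorem exists_slw (ht : Sc U t) (z : SKt W U k t ht) :
    ∃ (a : ∀ p : J × ℕ, k p.1) (ha : Slw W U t a), sk ht a ha = z := by
  obtain ⟨_, a, ha, rfl⟩ := z
  exact ⟨a, ha, rfl⟩

theorem incl_inj (ht : Sc U t) : Function.Injective (incl (W := W) (k := k) ht) := Subtype.val_injective

/-- the class of a family in `k` -/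
noncomputable def ek (a : ∀ p : J × ℕ, k p.1) : OO W U k :=
  algebraMap (KK W U k) (OO W U k) (mk (PU W U) (fun p => k p.1) a)

theorem ek_apply (a : ∀ p : J × ℕ, k p.1) : (ek a : OO W U k) =
    mk (PU W U) (fun p => AlgebraicClosure (k p.1)) fun p => algebraMap (k p.1) (AlgebraicClosure (k p.1)) (a p) := rfl

theorem ek_eq (a b : ∀ p : J × ℕ, k p.1) : (ek a : OO W U k) = ek b ↔
    ∀ᶠ p in (PU W U : Filter (J × ℕ)), a p = b p := by
  exact (RingHom.injective (algebraMap (KK W U k) (OO W U k))).eq_iff.trans (mk_eq _)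

theorem ek_zero (a : ∀ p : J × ℕ, k p.1) : (ek a : OO W U k) = 0 ↔
    ∀ᶠ p in (PU W U : Filter (J × ℕ)), a p = 0 := by
  exact (map_eq_zero (algebraMap (KK W U k) (OO W U k))).trans (mk_zero _)

theorem ek_mul (a b : ∀ p : J × ℕ, k p.1) : (ek (fun p => a p * b p) : OO W U k) = ek a * ek b := by
  unfold ek
  rw [← map_mul, ← map_mul]
  rfl

theorem ek_add (a b : ∀ p : J × ℕ, k p.1) : (ek (fun p => a p + b p) : OO W U k) = ek a + ek b := by
  unfold ek
  rw [← map_add, ← map_add]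
  rfl

theorem ek_inv (a : ∀ p : J × ℕ, k p.1) : (ek (fun p => (a p)⁻¹) : OO W U k) = (ek a)⁻¹ := by
  unfold ek
  rw [← map_inv₀, mk_inv]

theorem ek_div (a b : ∀ p : J × ℕ, k p.1) : (ek (fun p => a p / b p) : OO W U k) = ek a / ek b := by
  simp_rw [div_eq_mul_inv]
  rw [ek_mul, ek_inv]

theorem ek_pow (a : ∀ p : J × ℕ, k p.1) (n : ℕ) : (ek (fun p => a p ^ n) : OO W U k) = ek a ^ n := by
  unfold ek
  rw [← map_pow, ← map_pow]
  rfl

theorem ek_sum {α : Type*} (s : Finset α) (a : α → ∀ p : J × ℕ, k p.1) :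
    (ek (fun p => ∑ i ∈ s, a i p) : OO W U k) = ∑ i ∈ s, ek (a i) := by
  unfold ek
  rw [← map_sum, ← map_sum]
  congr 2
  funext p
  rw [Finset.sum_apply]

variable (S) in
/-- the ring of almost integral germs -/
noncomputable def aiR (ht : Sc U t) : Subalgebra (SKt W U k t ht) (OO W U k) where
  carrier := {y | ∃ a : ∀ p : J × ℕ, k p.1, AIf W U S t a ∧ ek a = y}
  mul_mem' := by
    rintro _ _ ⟨a, ha, rfl⟩ ⟨b, hb, rfl⟩
    exact ⟨_, ha.of_le hb fun p => pos_mul_le (S p.1) _ _, ek_mul a b⟩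
  add_mem' := by
    rintro _ _ ⟨a, ha, rfl⟩ ⟨b, hb, rfl⟩
    exact ⟨_, ha.of_le hb fun p => pos_add_le (S p.1) _ _, ek_add a b⟩
  algebraMap_mem' := by
    intro z
    obtain ⟨a, ha, rfl⟩ := exists_slw ht z
    exact ⟨a, ha.aint ht, rfl⟩

theorem exists_au (ht : Sc U t) (y : OO W U k) (h0 : y ≠ 0) (h1 : y ∈ aiR S ht)
    (h2 : y⁻¹ ∈ aiR S ht) : ∃ a : ∀ p : J × ℕ, k p.1, AUf W U S t a ∧ ek a = y := by
  obtain ⟨z, hz, rfl⟩ := h1
  obtain ⟨w, hw, hwz⟩ := h2
  rw [← ek_inv, ek_eq] at hwz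
  have hz0 : ∀ᶠ p in (PU W U : Filter (J × ℕ)), z p ≠ 0 := by
    rw [Ultrafilter.eventually_not]
    intro h
    exact h0 ((ek_zero z).2 h)
  refine ⟨z, ⟨hz0, fun η hη => ?_⟩, rfl⟩
  filter_upwards [hz0, hwz, hz (η / 2) (half_pos hη), hw (η / 2) (half_pos hη)] with p h1 h2 h3 h4
  refine (out_le_pos (S p.1) h1).trans ?_
  rw [← h2]
  linarith

theorem slow_indep (hcore : ∀ r, ∃ ε : ℝ, 0 < ε ∧ CoreE.{u} r ε) (ht : Sc U t) {n : ℕ} (y : Fin n → OO W U k)
    (hy : ∀ i, y i ≠ 0 ∧ y i ∈ aiR S ht ∧ (y i)⁻¹ ∈ aiR S ht)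
    (hne : ∀ i j, i ≠ j → ∀ a : SKt W U k t ht, y i ≠ algebraMap _ (OO W U k) a * y j) :
    LinearIndependent (SKt W U k t ht) y := by
  classical
  choose z hz hzy using fun i => exists_au ht (y i) (hy i).1 (hy i).2.1 (hy i).2.2
  rw [li_iff]
  intro c hc
  by_contra hcon
  push Not at hcon
  obtain ⟨i1, hi1⟩ := hcon
  choose s hs hsc using fun i => exists_slw ht (c i)
  set T : Finset (Fin n) := Finset.univ.filter fun i => c i ≠ 0 with hT
  set f : Fin T.card ≃ T := (T.equivFin).symm with hf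
  have hfT : ∀ l, c (f l) ≠ 0 := fun l => (Finset.mem_filter.1 (f l).2).2
  have hs0 : ∀ l, ∀ᶠ p in (PU W U : Filter (J × ℕ)), s (f l) p ≠ 0 := by
    intro l
    rw [← mk_ne_zero, ← incl_sk ht _ (hs (f l)), hsc]
    exact fun h => hfT l ((map_eq_zero (incl ht)).1 h)
  have hw : ∀ l, AUf W U S t (fun p => s (f l) p * z (f l) p) := fun l =>
    ((hs (f l)).au (hs0 l)).mul (hz (f l))
  have hne' : ∀ l l', l ≠ l' → ¬ Slw W U t (fun p => s (f l) p * z (f l) p / (s (f l') p * z (f l') p)) := by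
    intro l l' hll h
    have h1 : Slw W U t (fun p => (s (f l) p * z (f l) p / (s (f l') p * z (f l') p)) *
        (s (f l') p / s (f l) p)) := h.mul ((hs _).div (hs _))
    have h2 : Slw W U t (fun p => z (f l) p / z (f l') p) := by
      refine h1.congr ?_
      filter_upwards [hs0 l, hs0 l', (hz (f l')).1] with p h3 h4 h5
      field_simp
    refine hne (f l) (f l') (fun h3 => hll (f.injective (Subtype.ext h3))) (sk ht _ h2) ?_
    show y (f l) = ek _ * y (f l')
    rw [← hzy, ← hzy, ← ek_mul, ek_eq]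
    filter_upwards [(hz (f l')).1] with p h5
    rw [div_mul_cancel₀ _ h5]
  have hsum : ∀ᶠ p in (PU W U : Filter (J × ℕ)), ∑ l, s (f l) p * z (f l) p = 0 := by
    have h1 : (ek (fun p => ∑ i, s i p * z i p) : OO W U k) = 0 := by
      rw [ek_sum, ← hc]
      refine Finset.sum_congr rfl fun i _ => ?_
      rw [ek_mul, hzy, ← hsc i]
      rfl
    rw [ek_zero] at h1
    have h2 : ∀ i, i ∉ T → ∀ᶠ p in (PU W U : Filter (J × ℕ)), s i p = 0 := by
      intro i hi
      have : c i = 0 := by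
        by_contra h
        exact hi (Finset.mem_filter.2 ⟨Finset.mem_univ _, h⟩)
      rw [← mk_zero, ← incl_sk ht _ (hs i), hsc, this, map_zero]
    have h3 : ∀ᶠ p in (PU W U : Filter (J × ℕ)), ∀ i, i ∉ T → s i p = 0 := by
      rw [Filter.eventually_all]
      intro i
      by_cases hi : i ∈ T
      · exact Eventually.of_forall fun p h => absurd hi h
      · filter_upwards [h2 i hi] with p hj _
        exact hj
    filter_upwards [h1, h3] with p hj hj'
    have h4 : ∑ i, s i p * z i p = ∑ i ∈ T, s i p * z i p := by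
      refine (Finset.sum_subset (Finset.subset_univ T) ?_).symm
      intro i _ hi
      rw [hj' i hi, zero_mul]
    have h5 : ∑ i ∈ T, s i p * z i p = ∑ l, s (f l) p * z (f l) p := by
      rw [← Finset.sum_coe_sort T (fun i => s i p * z i p)]
      exact (Equiv.sum_comp f (fun i : T => s i p * z i p)).symm
    rw [← h5, ← h4, hj]
  have hTc : 0 < T.card := Finset.card_pos.2 ⟨i1, Finset.mem_filter.2 ⟨Finset.mem_univ _, hi1⟩⟩
  exact au_indep hcore ht hTc (fun l p => s (f l) p * z (f l) p) hw hne' hsum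

/-- the datum of slow germs and almost units -/
theorem slow_dat (hcore : ∀ r, ∃ ε : ℝ, 0 < ε ∧ CoreE.{u} r ε) (S : ∀ i, Finset (FinitePlace (k i))) (ht : Sc U t) :
    ∃ D : Dat (SKt W U k t ht) (OO W U k), ∀ a : ∀ p : J × ℕ, k p.1, AUf W U S t a → D.U (ek a) := by
  refine ⟨⟨aiR S ht, fun n y hy hne => slow_indep hcore ht y hy hne, ?_⟩, fun a ha => ?_⟩
  · rintro _ ⟨z, hz, rfl⟩ n hn a h
    obtain ⟨s, hs, rfl⟩ := exists_slw ht a
    have h1 : ∀ᶠ p in (PU W U : Filter (J × ℕ)), z p ^ n = s p := by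
      have h2 : (ek z : OO W U k) ^ n = ek s := h
      rwa [← ek_pow, ek_eq] at h2
    have h2 : Slw W U t z := by
      intro η hη
      filter_upwards [h1, hs (n * η) (by positivity)] with p h3 h4
      rw [← h3, Height.logHeight₁_pow] at h4
      have : (0 : ℝ) < n := by exact_mod_cast hn
      nlinarith
    exact ⟨sk ht z h2, rfl⟩
  · refine ⟨?_, ⟨a, ha.aint, rfl⟩, ⟨_, ha.inv.aint, ek_inv a⟩⟩
    intro h
    rw [ek_zero] at h
    obtain ⟨p, h1, h2⟩ := (h.and ha.1).exists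
    exact h2 h1

end Pool.Agent.UD
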