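import Pool.Agent.Helper64.UD.Glue

/-!
# UD with moving forms: from a family of inequalities which fail to a situation

The linear forms may depend on the point; their heights enter the inequality.
-/

set_option autoImplicit false
set_option linter.unusedSectionVars false

namespace Pool.Agent.UD

open NumberField IntermediateField Pool.Agent.Helper64.Vojta Pool.Agent.VZ Pool.Agent.SL Pool.Agent.PC
open Filter Topology MvPolynomial
open Pool.Agent.Helper77.AU (hgt_nonneg out_le_of hgt_le)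

universe u

/-- the sum of the heights of the coefficients -/
noncomputable def hF {k : Type u} [Field k] [NumberField k] {q : ℕ} {V : Type*} [Fintype V] (ℓ : Fin q → V → k) : ℝ :=
  ∑ i, ∑ a, Height.logHeight₁ (ℓ i a)

theorem hF_nonneg {k : Type u} [Field k] [NumberField k] {q : ℕ} {V : Type*} [Fintype V] (ℓ : Fin q → V → k) :
    0 ≤ hF ℓ :=
  Finset.sum_nonneg fun _ _ => Finset.sum_nonneg fun _ _ => Height.zero_le_logHeight₁ _

theorem le_hF {k : Type u} [Field k] [NumberField k] {q : ℕ} {V : Type*} [Fintype V] (ℓ : Fin q → V → k) (i : Fin q)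
    (a : V) : Height.logHeight₁ (ℓ i a) ≤ hF ℓ :=
  (Finset.single_le_sum (f := fun a => Height.logHeight₁ (ℓ i a)) (fun _ _ => Height.zero_le_logHeight₁ _)
    (Finset.mem_univ a)).trans
    (Finset.single_le_sum (f := fun i => ∑ a, Height.logHeight₁ (ℓ i a))
      (fun _ _ => Finset.sum_nonneg fun _ _ => Height.zero_le_logHeight₁ _) (Finset.mem_univ i))

/-- the trivial bound, with moving forms -/
def LamM (k : Type u) [Field k] [NumberField k] (S : Finset (Pl k)) (r n q : ℕ) : Prop :=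
  ∃ C : ℝ, 0 ≤ C ∧ ∀ (ℓ : Fin q → Fin (n + 1) → k) (y : Fin n → AlgebraicClosure k), dg y ≤ r →
    (∀ i, ∑ j, algebraMap k (fld y) (ℓ i j) * crd y j ≠ 0) → lam ℓ S y ≤ q * hgt y + C * (1 + hF ℓ)

/-- the units, with moving forms -/
def UnitsM (k : Type u) [Field k] [NumberField k] (S : Finset (Pl k)) (r n q : ℕ) (i₀ : Fin q) : Prop :=
  ∃ c : ℝ, 0 ≤ c ∧ ∀ (ℓ : Fin q → Fin (n + 1) → k) (y : Fin n → AlgebraicClosure k) (E : ℝ), dg y = r → 0 ≤ E →
      (∀ i, ∑ j, algebraMap k (fld y) (ℓ i j) * crd y j ≠ 0) → q * hgt y - E ≤ lam ℓ S y →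
      ∃ (x : Fin r → Fin (n + 1) → AlgebraicClosure k) (s₀ : Fin r) (c' : AlgebraicClosure k)
        (u : Fin q → k), c' ≠ 0 ∧
        (∀ j, x s₀ j = c' * (Fin.cons 1 y : Fin (n + 1) → AlgebraicClosure k) j) ∧
        (∀ s, ∑ j, algebraMap k (AlgebraicClosure k) (ℓ i₀ j) * x s j = 1) ∧
        (∀ i, u i ≠ 0 ∧ algebraMap k (AlgebraicClosure k) (u i) =
          ∏ s, ∑ j, algebraMap k (AlgebraicClosure k) (ℓ i j) * x s j) ∧
        (∀ i, Height.logHeight₁ (u i) ≤ (r : ℝ) * hgt y + c * (1 + hF ℓ)) ∧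
        (∀ (i : Fin q) (T : Finset (FinitePlace k)), (∀ v ∈ T, (Sum.inr v : Pl k) ∉ S) →
          ∑ v ∈ T, |Real.log (v (u i))| ≤ 2 * (r : ℝ) * E + c * (1 + hF ℓ)) ∧
        ∀ (s : Fin r) (d : ℕ) (f : MvPolynomial (Fin (n + 1)) k), f.IsHomogeneous d →
          MvPolynomial.aeval (Fin.cons 1 y : Fin (n + 1) → AlgebraicClosure k) f = 0 →
            MvPolynomial.aeval (x s) f = 0

theorem glueM (hcore : ∀ r, ∃ ε : ℝ, 0 < ε ∧ CoreE.{u} r ε) {k₀ : Type u} [Field k₀] {J : Type u} (W : Ultrafilter J)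
    (k : J → Type u) [∀ i, Field (k i)] [∀ i, NumberField (k i)] [∀ i, Algebra k₀ (k i)] {n q : ℕ} (r : ℕ)
    (I : Set (MvPolynomial (Fin (n + 1)) k₀)) (hI : GS.Homog I) (ℓ : ∀ i, ℕ → Fin q → Fin (n + 1) → k i) (i₀ : Fin q)
    (S : ∀ i, Finset (Pl (k i))) (hL : ∀ i, LamM (k i) (S i) r n q) (hUn : ∀ i, UnitsM (k i) (S i) r n q i₀) (ε : J → ℝ) (hε0 : ∀ i, 0 ≤ ε i) (hε1 : ∀ i, ε i ≤ 1)
    (hε : ∀ η : ℝ, 0 < η → ∀ᶠ i in (W : Filter J), ε i ≤ η)
    (y : ∀ i, ℕ → Fin n → AlgebraicClosure (k i))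
    (hyI : ∀ i j, ∀ f ∈ I, aeval (Fin.cons 1 (y i j) : Fin (n + 1) → AlgebraicClosure (k i)) f = 0)
    (hyr : ∀ i j, dg (y i j) = r)
    (hyD : ∀ i j l, ∑ a, algebraMap (k i) (fld (y i j)) (ℓ i j l a) * crd (y i j) a ≠ 0)
    (hyN : ∀ i (j : ℕ), (q - ε i) * hgt (y i j) + j * (1 + hF (ℓ i j)) < lam (ℓ i j) (S i) (y i j)) :
    ∃ s : Sit I q r, ∀ Φ : MvPolynomial (Fin q × Fin (n + 1)) k₀,
      (∀ᶠ p in (PU W (Filter.hyperfilter ℕ) : Filter (J × ℕ)),
        aeval (fun c : Fin q × Fin (n + 1) => ℓ p.1 p.2 c.1 c.2) Φ ≠ 0) → aeval s.co Φ ≠ 0 := by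
  classical
  set U : Ultrafilter ℕ := Filter.hyperfilter ℕ with hU
  have hUtop : (U : Filter ℕ) ≤ atTop := by
    rw [← Nat.cofinite_eq_atTop]
    exact Filter.hyperfilter_le_cofinite
  choose C₀ hC₀ hlam using hL
  choose C₁ hC₁ hunits using hUn
  -- the scale
  set t : J → ℕ → ℝ := fun i j => hgt (y i j) with ht_def
  have hge' : ∀ i (j : ℕ), ((j : ℝ) - C₀ i) * (1 + hF (ℓ i j)) ≤ t i j := by
    intro i j
    have h1 := hyN i j
    have h2 := hlam i (ℓ i j) (y i j) (hyr i j).le (hyD i j)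
    have h3 := hgt_nonneg (y i j)
    have h4 := mul_le_mul_of_nonneg_right (hε1 i) h3
    show ((j : ℝ) - C₀ i) * (1 + hF (ℓ i j)) ≤ hgt (y i j)
    nlinarith
  have hge : ∀ i (j : ℕ), (j : ℝ) - C₀ i ≤ t i j := by
    intro i j
    have h1 := hge' i j
    have h2 := hF_nonneg (ℓ i j)
    have h3 : 0 ≤ t i j := hgt_nonneg (y i j)
    rcases le_total ((j : ℝ) - C₀ i) 0 with h | h
    · exact h.trans h3
    · nlinarith
  have ht : Sc U t := by
    intro i
    refine Tendsto.mono_left ?_ hUtop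
    refine tendsto_atTop_mono (hge i) ?_
    exact tendsto_atTop_add_const_right _ _ tendsto_natCast_atTop_atTop
  have hsmall : ∀ (C : J → ℝ), (∀ i, 0 ≤ C i) → ∀ η : ℝ, 0 < η →
      ∀ᶠ p in (PU W U : Filter (J × ℕ)), C p.1 * (1 + hF (ℓ p.1 p.2)) ≤ η * t p.1 p.2 := by
    intro C hC η hη
    refine (ev_iff W U).2 (Eventually.of_forall fun i => ?_)
    have h1 : ∀ᶠ j : ℕ in (U : Filter ℕ), C i / η + C₀ i ≤ (j : ℝ) :=
      hUtop (tendsto_natCast_atTop_atTop.eventually_ge_atTop (C i / η + C₀ i))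
    filter_upwards [h1] with j hj
    have h2 := hge' i j
    have h3 := hF_nonneg (ℓ i j)
    have h4 : C i / η * (1 + hF (ℓ i j)) ≤ t i j :=
      (mul_le_mul_of_nonneg_right (by linarith) (by linarith)).trans h2
    have h5 : C i * (1 + hF (ℓ i j)) = η * (C i / η * (1 + hF (ℓ i j))) := by
      field_simp
    show C i * (1 + hF (ℓ i j)) ≤ η * t i j
    rw [h5]
    exact mul_le_mul_of_nonneg_left h4 hη.le
  have hslow : ∀ i a, Slw W U t fun p : J × ℕ => ℓ p.1 p.2 i a := by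
    intro i a η hη
    filter_upwards [hsmall (fun _ => 1) (fun _ => zero_le_one) η hη] with p hp
    have h1 := le_hF (ℓ p.1 p.2) i a
    linarith
  -- the units
  have hE : ∀ i j, 0 ≤ ε i * hgt (y i j) := fun i j => mul_nonneg (hε0 i) (hgt_nonneg _)
  have hNE : ∀ i j, q * hgt (y i j) - ε i * hgt (y i j) ≤ lam (ℓ i j) (S i) (y i j) := by
    intro i j
    have h1 := hyN i j
    have h2 := hF_nonneg (ℓ i j)
    have : (0 : ℝ) ≤ j * (1 + hF (ℓ i j)) := mul_nonneg (Nat.cast_nonneg j) (by linarith)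
    linarith
  choose x s c' u hc' hxs hx1 hxu hxh hxT hxf using fun i j =>
    hunits i (ℓ i j) (y i j) _ (hyr i j) (hE i j) (hyD i j) (hNE i j)
  obtain ⟨s0, hs0⟩ := const_fin (PU W U) fun p => s p.1 p.2
  obtain ⟨D, hD⟩ := slow_dat (W := W) hcore (fun i => (S i).toRight) ht
  have hAU : ∀ l, AUf W U (fun i => (S i).toRight) t (fun p => u p.1 p.2 l) := by
    intro l
    refine ⟨Eventually.of_forall fun p => (hxu p.1 p.2 l).1, fun η hη => ?_⟩
    have h1 : ∀ᶠ p in (PU W U : Filter (J × ℕ)), ε p.1 ≤ η / (4 * (r + 1)) :=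
      (ev_iff W U).2 ((hε _ (by positivity)).mono fun i hi => Eventually.of_forall fun j => hi)
    filter_upwards [h1, hsmall C₁ hC₁ _ (half_pos hη), ht.pos (W := W)] with p h2 h3 h4
    have h5 := out_le_of (S p.1) (hxu p.1 p.2 l).1 _ (hxT p.1 p.2 l)
    refine h5.trans ?_
    have h6 : 2 * (r : ℝ) * (ε p.1 * hgt (y p.1 p.2)) ≤ η / 2 * t p.1 p.2 := by
      have h7 : (0 : ℝ) < 4 * (r + 1) := by positivity
      rw [le_div_iff₀ h7] at h2
      have h8 : 2 * (r : ℝ) * ε p.1 ≤ η / 2 := by nlinarith [hε0 p.1]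
      have h9 := mul_le_mul_of_nonneg_right h8 h4.le
      show 2 * (r : ℝ) * (ε p.1 * t p.1 p.2) ≤ _
      linarith
    linarith
  let X : Fin r → Fin (n + 1) → OO W U k := fun σ a => gO fun p : J × ℕ => x p.1 p.2 σ a
  let L : Fin q → Fin (n + 1) → SKt W U k t ht := fun i a => sk ht (fun p : J × ℕ => ℓ p.1 p.2 i a) (hslow i a)
  have huu : ∀ i, GS.uu L X i = ek fun p : J × ℕ => u p.1 p.2 i := by
    intro i
    rw [ek_apply]
    have h : (fun p : J × ℕ => algebraMap (k p.1) (AlgebraicClosure (k p.1)) (u p.1 p.2 i)) =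
        ∏ σ, fun p : J × ℕ => ∑ a, algebraMap (k p.1) (AlgebraicClosure (k p.1)) (ℓ p.1 p.2 i a) * x p.1 p.2 σ a := by
      funext p
      rw [Finset.prod_apply]
      exact (hxu p.1 p.2 i).2
    rw [h, map_prod]
    unfold GS.uu
    refine Finset.prod_congr rfl fun σ _ => ?_
    unfold GS.lin
    have h' : (fun p : J × ℕ => ∑ a, algebraMap (k p.1) (AlgebraicClosure (k p.1)) (ℓ p.1 p.2 i a) * x p.1 p.2 σ a) =
        ∑ a, (fun p : J × ℕ => algebraMap (k p.1) (AlgebraicClosure (k p.1)) (ℓ p.1 p.2 i a)) *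
          fun p : J × ℕ => x p.1 p.2 σ a := by
      funext p
      rw [Finset.sum_apply]
      rfl
    rw [h', map_sum]
    refine Finset.sum_congr rfl fun a _ => ?_
    rw [map_mul]
    rfl
  have hc0 : (gO fun p : J × ℕ => c' p.1 p.2 : OO W U k) ≠ 0 := by
    intro h
    have h1 := (mk_zero (PU W U)).1 h
    obtain ⟨p, hp⟩ := h1.exists
    exact hc' p.1 p.2 hp
  have hXs0 : ∀ a, X s0 a = gO (fun p : J × ℕ => c' p.1 p.2) *
      gO fun p : J × ℕ => (Fin.cons 1 (y p.1 p.2) : Fin (n + 1) → AlgebraicClosure (k p.1)) a := by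
    intro a
    have h1 : (gO fun p : J × ℕ => c' p.1 p.2 * (Fin.cons 1 (y p.1 p.2) : Fin (n + 1) → AlgebraicClosure (k p.1)) a : OO W U k) =
        gO (fun p : J × ℕ => c' p.1 p.2) *
          gO fun p : J × ℕ => (Fin.cons 1 (y p.1 p.2) : Fin (n + 1) → AlgebraicClosure (k p.1)) a :=
      map_mul (mk (PU W U) _) _ _
    rw [← h1]
    refine (mk_eq (PU W U)).2 ?_
    filter_upwards [hs0] with p hp
    rw [← hp]
    exact hxs p.1 p.2 a
  refine ⟨{ K := SKt W U k t ht
            Ω := OO W U k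
            D := D
            ℓ := L
            X := X
            s0 := s0
            hU := ?_
            hI := ?_
            hrk := ?_ }, ?_⟩
  · intro i i'
    rw [huu, huu, ← ek_div]
    exact hD _ ((hAU i).div (hAU i'))
  · intro σ f hf
    obtain ⟨e, he⟩ := hI f hf
    have h1 : eval₂ ((algebraMap (SKt W U k t ht) (OO W U k)).comp (algebraMap k₀ (SKt W U k t ht))) (X σ) f =
        mk (PU W U) (fun p => AlgebraicClosure (k p.1)) fun p =>
          eval₂ ((algebraMap (k p.1) (AlgebraicClosure (k p.1))).comp (algebraMap k₀ (k p.1))) (x p.1 p.2 σ) f :=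
      eval₂_mk (PU W U) f fun p => x p.1 p.2 σ
    rw [h1, mk_zero]
    refine Eventually.of_forall fun p => ?_
    have h2 := hxf p.1 p.2 σ e (MvPolynomial.map (algebraMap k₀ (k p.1)) f) (he.map _) (by
      rw [aeval_map_algebraMap]
      exact hyI p.1 p.2 f hf)
    rw [aeval_def, eval₂_map] at h2
    exact h2
  · by_contra hcon
    rw [not_le, Order.lt_one_iff] at hcon
    have halg : ∀ a : Fin n, IsAlgebraic (SKt W U k t ht) (gO (fun p : J × ℕ => y p.1 p.2 a) : OO W U k) := by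
      intro a
      have h1 : (gO fun p : J × ℕ => y p.1 p.2 a : OO W U k) ∈ GS.Rat (X s0) := by
        refine ⟨a.succ, 0, ?_⟩
        rw [hXs0, hXs0]
        have h2 : (gO fun p : J × ℕ => (Fin.cons 1 (y p.1 p.2) : Fin (n + 1) → AlgebraicClosure (k p.1)) 0 : OO W U k) = 1 :=
          map_one (mk (PU W U) _)
        rw [h2, mul_one, mul_div_cancel_left₀ _ hc0]
        rfl
      have h3 : GS.Rat (X s0) ⊆ GS.cl (SKt W U k t ht) ∅ := by
        unfold GS.cl
        unfold GS.rk at hcon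
        rw [Matroid.eRk_eq_zero_iff'] at hcon
        exact fun z hz => hcon ⟨hz, by simp⟩
      have h4 := h3 h1
      rw [GS.mem_cl, Algebra.adjoin_empty] at h4
      exact Subalgebra.isAlgebraic_of_isAlgebraic_bot h4
    choose d a ha hda using fun j => exists_slow_root ht _ (halg j)
    have hda' : ∀ᶠ p in (PU W U : Filter (J × ℕ)), ∀ j, y p.1 p.2 j ^ d j =
        ∑ i : Fin (d j), algebraMap (k p.1) (AlgebraicClosure (k p.1)) (a j i p) * y p.1 p.2 j ^ (i : ℕ) := by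
      rw [Filter.eventually_all]
      exact hda
    set m : ℝ := ∑ j, ((d j : ℝ) + 1) + 1 with hm
    have hm0 : 0 < m := by positivity
    have hsl : ∀ᶠ p in (PU W U : Filter (J × ℕ)), ∀ j, ∀ i : Fin (d j),
        Height.logHeight₁ (a j i p) ≤ 1 / m * t p.1 p.2 := by
      rw [Filter.eventually_all]
      intro j
      rw [Filter.eventually_all]
      intro i
      exact ha j i _ (by positivity)
    have hcs : ∀ᶠ p in (PU W U : Filter (J × ℕ)), ∀ j,
        Module.finrank ℚ (k p.1) * Real.log (d j) ≤ 1 / m * t p.1 p.2 := by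
      rw [Filter.eventually_all]
      intro j
      exact ht.small (W := W) (fun i => Module.finrank ℚ (k i) * Real.log (d j)) (by positivity)
    obtain ⟨p, h1, h2, h3, h4⟩ := (hda'.and (hsl.and (hcs.and (ht.pos (W := W))))).exists
    have h5 := hgt_le (y p.1 p.2) d (fun j i => a j i p) h1
    have h6 : ∑ j, (∑ i, Height.logHeight₁ (a j i p) + Module.finrank ℚ (k p.1) * Real.log (d j)) ≤
        ∑ j, ((d j : ℝ) + 1) * (1 / m * t p.1 p.2) := by
      refine Finset.sum_le_sum fun j _ => ?_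
      have h7 : ∑ i, Height.logHeight₁ (a j i p) ≤ ∑ _i : Fin (d j), 1 / m * t p.1 p.2 :=
        Finset.sum_le_sum fun i _ => h2 j i
      rw [Finset.sum_const, Finset.card_univ, Fintype.card_fin, nsmul_eq_mul] at h7
      have := h3 j
      linarith
    rw [← Finset.sum_mul] at h6
    have h8 : (∑ j, ((d j : ℝ) + 1)) * (1 / m * t p.1 p.2) < t p.1 p.2 := by
      have h9 : ∑ j, ((d j : ℝ) + 1) = m - 1 := by rw [hm]; ring
      rw [h9]
      have h10 : (m - 1) * (1 / m * t p.1 p.2) = t p.1 p.2 - t p.1 p.2 / m := by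
        field_simp
      rw [h10]
      have : 0 < t p.1 p.2 / m := div_pos h4 hm0
      linarith
    have h11 : t p.1 p.2 = hgt (y p.1 p.2) := rfl
    linarith
  · intro Φ hΦ h0
    have h1 : incl ht (aeval (fun p : Fin q × Fin (n + 1) => L p.1 p.2) Φ) =
        mk (PU W U) (fun p => k p.1) fun p => aeval (fun c : Fin q × Fin (n + 1) => ℓ p.1 p.2 c.1 c.2) Φ := by
      rw [aeval_def, MvPolynomial.hom_eval₂]
      have h2 := aeval_mk (PU W U) Φ (K := fun p => k p.1) fun p => fun c : Fin q × Fin (n + 1) => ℓ p.1 p.2 c.1 c.2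
      rw [aeval_def] at h2
      exact h2
    have h0' : aeval (fun p : Fin q × Fin (n + 1) => L p.1 p.2) Φ = 0 := h0
    rw [h0', map_zero, eq_comm, mk_zero] at h1
    obtain ⟨i, h2, h3⟩ := (h1.and hΦ).exists
    exact h3 h2

end Pool.Agent.UD
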