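import Pool.Agent.Helper64.UD.Fam
import Pool.Agent.Helper77.PC.Sit

/-!
# UD: linear independence of almost units, for families of number fields
-/

set_option autoImplicit false

namespace Pool.Agent.UD

open NumberField Filter Topology
open Pool.Agent.V2 Pool.Agent.Helper77.AU
open Pool.Agent.Helper64.Vojta (Pl nv nv_nonneg nv_mul nv_one nv_zero nv_pos nv_inv)

universe u

/-- the subspace theorem in the form which is needed, with defect `ε` -/
def CoreE (r : ℕ) (ε : ℝ) : Prop :=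
  ∀ (K : Type u) [Field K] [NumberField K] (U : Ultrafilter ℕ) (S : Finset (FinitePlace K)) (y : ℕ → Fin r → K)
    (i0 : Fin r), (∀ j, y j i0 = 1) →
    (∀ i, ∀ᶠ j in (U : Filter ℕ), y j i ≠ 0 ∧ out S (y j i) ≤ ε * vH (y j)) →
    ∀ b : Fin r → K, (∀ i, b i ≠ 0) →
    (∀ᶠ j in (U : Filter ℕ), ∑ i, b i * y j i ≠ 0 ∧ out S (∑ i, b i * y j i) ≤ ε * vH (y j)) →
    Tendsto (fun j => vH (y j)) U atTop →
    ∃ W : Submodule K (Fin r → K), W ≠ ⊤ ∧ ∀ᶠ j in (U : Filter ℕ), y j ∈ W

theorem core2e {r : ℕ} {ε : ℝ} (hε : 0 < ε) (hcore : CoreE.{u} r ε) {K : Type u} [Field K] [NumberField K]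
    (U : Ultrafilter ℕ) (S : Finset (FinitePlace K)) (t : ℕ → ℝ) (ht : Tendsto t U atTop)
    (y : Fin r → ℕ → K) (i0 i1 : Fin r) (c : ℝ) (hc : 0 < c)
    (hy : ∀ i, ∀ᶠ j in (U : Filter ℕ), y i j ≠ 0 ∧ out S (y i j) ≤ ε * c / 2 * t j)
    (hne : ∀ᶠ j in (U : Filter ℕ), c * t j ≤ Height.logHeight₁ (y i1 j / y i0 j))
    (b : Fin r → K) (hb : ∀ i, b i ≠ 0)
    (hz : ∀ᶠ j in (U : Filter ℕ), ∑ i, b i * y i j ≠ 0 ∧ out S (∑ i, b i * y i j) ≤ ε * c / 2 * t j) :
    ∃ W : Submodule K (Fin r → K), W ≠ ⊤ ∧ ∀ᶠ j in (U : Filter ℕ), (fun i => y i j) ∈ W := by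
  classical
  set y' : ℕ → Fin r → K := fun j i => if y i0 j = 0 then 1 else y i j / y i0 j with hy'
  have h1 : ∀ j, y' j i0 = 1 := by
    intro j
    simp only [hy']
    split_ifs with h
    · rfl
    · exact div_self h
  have hy0 : ∀ j, y' j ≠ 0 := by
    intro j h
    have := h1 j
    rw [h] at this
    exact zero_ne_one this
  have h4 : ∀ᶠ j in (U : Filter ℕ), c * t j ≤ vH (y' j) := by
    filter_upwards [hne, hy i0] with j hj hj0
    refine hj.trans ?_
    have h5 : y i1 j / y i0 j = y' j i1 := by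
      simp only [hy', hj0.1, if_false]
    rw [h5, Height.logHeight₁_eq_logHeight]
    have hne0 : (![y' j i1, 1] : Fin 2 → K) ≠ 0 := by
      intro h
      have := congrFun h 1
      simp at this
    rw [← vH_eq hne0]
    refine gsum_mono (finS_vn hne0) (finS_vn (hy0 j)) fun v => ?_
    refine Real.log_le_log (vn_pos v hne0) ?_
    refine vn_le v _ (vn_pos v (hy0 j)).le ?_
    intro i
    fin_cases i
    · exact le_vn v (y' j) i1
    · have := le_vn v (y' j) i0
      rw [h1] at this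
      exact this
  have h5 : Tendsto (fun j => vH (y' j)) U atTop :=
    tendsto_atTop_mono' _ h4 (ht.const_mul_atTop hc)
  have hdiv : ∀ z : ℕ → K, (∀ᶠ j in (U : Filter ℕ), z j ≠ 0 ∧ out S (z j) ≤ ε * c / 2 * t j) →
      ∀ᶠ j in (U : Filter ℕ), z j / y i0 j ≠ 0 ∧ out S (z j / y i0 j) ≤ ε * vH (y' j) := by
    intro z hz
    filter_upwards [hz, hy i0, h4] with j h6 h7 h8
    refine ⟨div_ne_zero h6.1 h7.1, ?_⟩
    rw [div_eq_mul_inv]
    refine (out_mul_le S h6.1 (inv_ne_zero h7.1)).trans ?_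
    rw [out_inv]
    have h9 : ε * (c * t j) ≤ ε * vH (y' j) := mul_le_mul_of_nonneg_left h8 hε.le
    linarith [h6.2, h7.2]
  obtain ⟨W, hW, hW'⟩ := hcore K U S y' i0 h1 (fun i => by
      filter_upwards [hdiv (y i) (hy i), hy i0] with j h6 h7
      have h8 : y' j i = y i j / y i0 j := by
        simp only [hy', h7.1, if_false]
      rw [h8]
      exact h6) b hb (by
      filter_upwards [hdiv _ hz, hy i0] with j h6 h7
      have h8 : ∑ i, b i * y' j i = (∑ i, b i * y i j) / y i0 j := by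
        rw [Finset.sum_div]
        refine Finset.sum_congr rfl fun i _ => ?_
        simp only [hy', h7.1, if_false]
        ring
      rw [h8]
      exact h6) h5
  refine ⟨W, hW, ?_⟩
  filter_upwards [hW', hy i0] with j hj hj0
  have : (fun i => y i j) = y i0 j • y' j := by
    funext i
    simp only [hy', hj0.1, if_false, Pi.smul_apply, smul_eq_mul]
    rw [mul_div_cancel₀ _ hj0.1]
  rw [this]
  exact W.smul_mem _ hj

variable {J : Type u} {W : Ultrafilter J} {U : Ultrafilter ℕ} {k : J → Type u} [∀ i, Field (k i)]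
  [∀ i, NumberField (k i)] {S : ∀ i, Finset (FinitePlace (k i))} {t : J → ℕ → ℝ}

theorem main_ind (hcore : ∀ r, ∃ ε : ℝ, 0 < ε ∧ CoreE.{u} r ε) (ht : Sc U t) {n : ℕ}
    (y : Fin n → ∀ p : J × ℕ, k p.1) (hy : ∀ l, AUf W U S t (y l))
    (hne : ∀ l l', l ≠ l' → ¬ Slw W U t (fun p => y l p / y l' p)) (m : ℕ) :
    ∀ c : Fin n → ∀ i, k i, (∃ T : Finset (Fin n), T.card = m ∧ ∀ᶠ i in (W : Filter J), ∀ l, c l i ≠ 0 ↔ l ∈ T) →
      (∀ᶠ p in (PU W U : Filter (J × ℕ)), ∑ l, c l p.1 * y l p = 0) → m = 0 := by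
  classical
  induction m using Nat.strong_induction_on with
  | _ m ih =>
  rintro c ⟨T, hTm, hT⟩ hsum
  by_contra hm0
  obtain ⟨l0, hl0T⟩ : T.Nonempty := Finset.card_pos.1 (by omega)
  set T' := T.erase l0 with hT'
  have hcT' : T'.card < m := by
    rw [hT', Finset.card_erase_of_mem hl0T, ← hTm]
    have : 0 < T.card := Finset.card_pos.mpr ⟨l0, hl0T⟩
    omega
  have hTP : ∀ᶠ p in (PU W U : Filter (J × ℕ)), ∀ l, c l p.1 ≠ 0 ↔ l ∈ T :=
    (ev_iff W U).2 (hT.mono fun i hi => Eventually.of_forall fun j => hi)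
  -- the relation in the form y l0 = ∑ ...
  set r := T'.card with hr
  set f : Fin r ≃ T' := (T'.equivFin).symm with hf
  set b : Fin r → ∀ i, k i := fun l i => -(c (f l) i) / c l0 i with hb
  have hfT : ∀ l, (f l : Fin n) ∈ T' := fun l => (f l).2
  have hfne : ∀ l, (f l : Fin n) ≠ l0 := fun l => Finset.ne_of_mem_erase (hfT l)
  have hrel : ∀ᶠ p in (PU W U : Filter (J × ℕ)), ∑ l, b l p.1 * y (f l) p = y l0 p := by
    filter_upwards [hsum, hTP] with p hj hTp
    have hi0' : c l0 p.1 ≠ 0 := (hTp l0).2 hl0T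
    have h1 : ∑ i, c i p.1 * y i p = c l0 p.1 * y l0 p + ∑ i ∈ T', c i p.1 * y i p := by
      rw [hT', Finset.add_sum_erase T (fun i => c i p.1 * y i p) hl0T]
      refine (Finset.sum_subset (Finset.subset_univ T) ?_).symm
      intro i _ hi
      have : c i p.1 = 0 := by
        by_contra h
        exact hi ((hTp i).mp h)
      rw [this, zero_mul]
    have h2 : ∑ i ∈ T', c i p.1 * y i p = ∑ l, c (f l) p.1 * y (f l) p := by
      rw [← Finset.sum_coe_sort T' (fun i => c i p.1 * y i p)]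
      exact (Equiv.sum_comp f (fun i : T' => c i p.1 * y i p)).symm
    have h3 : ∑ l, b l p.1 * y (f l) p = -(∑ l, c (f l) p.1 * y (f l) p) / c l0 p.1 := by
      rw [neg_div, Finset.sum_div, ← Finset.sum_neg_distrib]
      refine Finset.sum_congr rfl fun l _ => ?_
      simp only [hb]
      ring
    rw [h3]
    rw [h1, h2] at hj
    have h4 : ∑ l, c (f l) p.1 * y (f l) p = -(c l0 p.1 * y l0 p) := by linear_combination hj
    rw [h4]
    field_simp
  have hcase : r = 0 ∨ r = 1 ∨ 2 ≤ r := by omega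
  rcases hcase with h0 | h1 | h2
  · -- y l0 = 0
    have hE : IsEmpty (Fin r) := by
      rw [h0]
      infer_instance
    have h3 : ∀ᶠ p in (PU W U : Filter (J × ℕ)), False := by
      filter_upwards [hrel, (hy l0).1] with p hj hj0
      rw [Finset.univ_eq_empty, Finset.sum_empty] at hj
      exact hj0 hj.symm
    rw [Filter.eventually_false_iff_eq_bot] at h3
    exact (PU W U).neBot.ne h3
  · have hl : ∃ l : Fin r, ∀ l', l' = l := by
      refine ⟨⟨0, by omega⟩, fun l' => Fin.ext ?_⟩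
      have := l'.2
      have h4 : (l' : ℕ) = 0 := by omega
      rw [h4]
    obtain ⟨l, hl⟩ := hl
    refine hne l0 (f l) (hfne l).symm ((Slw.cst ht (b l)).congr ?_)
    filter_upwards [hrel, (hy (f l)).1] with p hj hj0
    rw [← hj, Fintype.sum_eq_single l (fun l' hl' => absurd (hl l') hl'), mul_div_cancel_right₀ _ hj0]
  · -- core
    obtain ⟨ε, hε, hcoreε⟩ := hcore r
    set i0 : Fin r := ⟨0, by omega⟩ with hi0
    set i1 : Fin r := ⟨1, by omega⟩ with hi1
    have hl01 : i1 ≠ i0 := by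
      intro h
      have := congrArg Fin.val h
      simp [hi0, hi1] at this
    obtain ⟨κ, hκ, hκ'⟩ := not_slw (hne (f i1) (f i0) (by
      intro h
      exact hl01 (f.injective (Subtype.ext h))))
    have hη : 0 < ε * κ / 2 := by positivity
    have hz : ∀ᶠ p in (PU W U : Filter (J × ℕ)), ∑ l, b l p.1 * y (f l) p ≠ 0 ∧
        out (S p.1) (∑ l, b l p.1 * y (f l) p) ≤ ε * κ / 2 * t p.1 p.2 := by
      filter_upwards [hrel, (hy l0).1, (hy l0).2 _ hη] with p h3 h4 h5
      rw [h3]
      exact ⟨h4, h5⟩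
    have hyy : ∀ᶠ p in (PU W U : Filter (J × ℕ)), ∀ l : Fin r, y (f l) p ≠ 0 ∧
        out (S p.1) (y (f l) p) ≤ ε * κ / 2 * t p.1 p.2 := by
      rw [Filter.eventually_all]
      intro l
      filter_upwards [(hy (f l)).1, (hy (f l)).2 _ hη] with p h4 h5
      exact ⟨h4, h5⟩
    rw [ev_iff] at hz hyy hκ'
    have hW : ∀ᶠ i in (W : Filter J), ∃ V : Submodule (k i) (Fin r → k i), V ≠ ⊤ ∧
        ∀ᶠ j in (U : Filter ℕ), (fun l => y (f l) (i, j)) ∈ V := by
      filter_upwards [hz, hyy, hκ', hT] with i h3 h4 h5 h6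
      have hbne : ∀ l, b l i ≠ 0 := by
        intro l
        simp only [hb]
        refine div_ne_zero (neg_ne_zero.mpr ?_) ((h6 l0).2 hl0T)
        exact (h6 _).mpr (Finset.mem_of_mem_erase (hfT l))
      exact core2e hε hcoreε U (S i) (t i) (ht i) (fun l j => y (f l) (i, j)) i0 i1 κ hκ
        (fun l => h4.mono fun j hj => hj l) h5 (fun l => b l i) hbne h3
    have hφ : ∀ᶠ i in (W : Filter J), ∃ φ : (Fin r → k i) →ₗ[k i] k i, φ ≠ 0 ∧
        ∀ᶠ j in (U : Filter ℕ), φ (fun l => y (f l) (i, j)) = 0 := by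
      filter_upwards [hW] with i hi
      obtain ⟨V, hV, hVj⟩ := hi
      obtain ⟨φ, hφ, hVφ⟩ := Submodule.exists_le_ker_of_lt_top V (lt_top_iff_ne_top.mpr hV)
      refine ⟨φ, hφ, hVj.mono fun j hj => ?_⟩
      have := hVφ hj
      rwa [LinearMap.mem_ker] at this
    -- the new relation
    let φ : ∀ i, (Fin r → k i) →ₗ[k i] k i := fun i =>
      if h : ∃ φ : (Fin r → k i) →ₗ[k i] k i, φ ≠ 0 ∧
        ∀ᶠ j in (U : Filter ℕ), φ (fun l => y (f l) (i, j)) = 0 then h.choose else 0
    have hφ' : ∀ᶠ i in (W : Filter J), φ i ≠ 0 ∧ ∀ᶠ j in (U : Filter ℕ), φ i (fun l => y (f l) (i, j)) = 0 := by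
      filter_upwards [hφ] with i hi
      have : φ i = hi.choose := dif_pos hi
      rw [this]
      exact hi.choose_spec
    set c' : Fin n → ∀ i, k i := fun l i =>
      if h : l ∈ T' then φ i (Pi.single (f.symm ⟨l, h⟩) 1) else 0 with hc'
    have hcφ : ∀ (l : Fin r) i, c' (f l) i = φ i (Pi.single l 1) := by
      intro l i
      simp only [hc', hfT l, dif_pos]
      congr 2
      exact f.symm_apply_apply l
    have hc'sum : ∀ᶠ p in (PU W U : Filter (J × ℕ)), ∑ l, c' l p.1 * y l p = 0 := by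
      rw [ev_iff]
      filter_upwards [hφ'] with i hi
      filter_upwards [hi.2] with j h3
      have h4 : φ i (fun l => y (f l) (i, j)) = ∑ l, y (f l) (i, j) * φ i (Pi.single l 1) := by
        conv_lhs => rw [← Finset.univ_sum_single (fun l => y (f l) (i, j))]
        rw [map_sum]
        refine Finset.sum_congr rfl fun l _ => ?_
        have : (Pi.single l (y (f l) (i, j)) : Fin r → k i) = y (f l) (i, j) • Pi.single l 1 := by
          rw [← Pi.single_smul, smul_eq_mul, mul_one]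
        rw [this, map_smul, smul_eq_mul]
      have h5 : ∑ l, c' l i * y l (i, j) = ∑ l ∈ T', c' l i * y l (i, j) := by
        refine (Finset.sum_subset (Finset.subset_univ T') ?_).symm
        intro l _ hl
        simp only [hc', hl, dif_neg, not_false_iff, zero_mul]
      have h6 : ∑ l ∈ T', c' l i * y l (i, j) = ∑ l, c' (f l) i * y (f l) (i, j) := by
        rw [← Finset.sum_coe_sort T' (fun l => c' l i * y l (i, j))]
        exact (Equiv.sum_comp f (fun l : T' => c' l i * y l (i, j))).symm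
      show ∑ l, c' l i * y l (i, j) = 0
      rw [h5, h6, ← h3, h4]
      refine Finset.sum_congr rfl fun l _ => ?_
      rw [hcφ, mul_comm]
    -- its support
    obtain ⟨T2, hT2⟩ := Pool.Agent.PC.const_fin W fun i => Finset.univ.filter fun l => c' l i ≠ 0
    have hT2' : T2 ⊆ T' ∧ T2.Nonempty := by
      obtain ⟨i, hi, hi2⟩ := (hT2.and hφ').exists
      refine ⟨fun l hl => ?_, ?_⟩
      · rw [← hi, Finset.mem_filter] at hl
        by_contra h
        exact hl.2 (by simp only [hc', h, dif_neg, not_false_iff])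
      · by_contra hemp
        rw [Finset.not_nonempty_iff_eq_empty, ← hi, Finset.filter_eq_empty_iff] at hemp
        apply hi2.1
        refine LinearMap.pi_ext' fun l => LinearMap.ext_ring ?_
        have h8 : c' (f l) i = 0 := by
          by_contra h
          exact hemp (Finset.mem_univ (f l : Fin n)) h
        rw [hcφ] at h8
        simpa using h8
    have h9 := ih T2.card (lt_of_le_of_lt (Finset.card_le_card hT2'.1) hcT') c'
      ⟨T2, rfl, hT2.mono fun i hi l => by rw [← hi, Finset.mem_filter]; simp⟩ hc'sum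
    rw [Finset.card_eq_zero] at h9
    exact hT2'.2.ne_empty h9

/-- almost units such that no ratio is slow satisfy no relation with coefficients one -/
theorem au_indep (hcore : ∀ r, ∃ ε : ℝ, 0 < ε ∧ CoreE.{u} r ε) (ht : Sc U t) {n : ℕ} (hn : 0 < n)
    (y : Fin n → ∀ p : J × ℕ, k p.1) (hy : ∀ l, AUf W U S t (y l))
    (hne : ∀ l l', l ≠ l' → ¬ Slw W U t (fun p => y l p / y l' p)) :
    ¬ ∀ᶠ p in (PU W U : Filter (J × ℕ)), ∑ l, y l p = 0 := by
  intro hsum
  have h := main_ind hcore ht y hy hne n (fun _ _ => 1)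
    ⟨Finset.univ, by simp, Eventually.of_forall fun i l => by simp⟩ (by
      filter_upwards [hsum] with p hp
      simpa using hp)
  omega

end Pool.Agent.UD
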