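import Pool.Agent.Helper64.UD.GlueM
import Pool.Agent.Helper64.PC.Lin

/-!
# UD with moving forms: the inequality for linear forms in affine coordinates
-/

set_option autoImplicit false

namespace Pool.Agent.UD

open NumberField IntermediateField Pool.Agent.Helper64.Vojta Pool.Agent.GS Pool.Agent.PC MvPolynomial Filter
open Pool.Agent.Helper77.AU (hgt_nonneg)

universe u

/-- a failing inequality, with moving forms -/
structure BadM {k₀ : Type u} [Field k₀] {N q : ℕ} (d : ℕ) (I : Set (MvPolynomial (Fin (N + 1)) k₀))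
    (Φ : MvPolynomial (Fin q × Fin (N + 1)) k₀) (δ : ℝ) : Type (u + 1) where
  k : Type u
  [fk : Field k]
  [nk : NumberField k]
  [ak : Algebra k₀ k]
  ℓ : ℕ → Fin q → Fin (N + 1) → k
  hℓ : ∀ j, aeval (fun p : Fin q × Fin (N + 1) => ℓ j p.1 p.2) Φ ≠ 0
  S : Finset (Pl k)
  y : ℕ → Fin N → AlgebraicClosure k
  hyI : ∀ j, ∀ f ∈ I, aeval (Fin.cons 1 (y j) : Fin (N + 1) → AlgebraicClosure k) f = 0
  hyd : ∀ j, VZ.dg (y j) = d
  hyD : ∀ j i, ∑ a, algebraMap k (VZ.fld (y j)) (ℓ j i a) * VZ.crd (y j) a ≠ 0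
  hyN : ∀ j : ℕ, (q - δ) * VZ.hgt (y j) + j * (1 + hF (ℓ j)) < VZ.lam (ℓ j) S (y j)

attribute [instance] BadM.fk BadM.nk BadM.ak

theorem badM_false (hE : ∀ r, ∃ ε : ℝ, 0 < ε ∧ CoreE.{u} r ε) {k₀ : Type u} [Field k₀] {N q d : ℕ} (hq0 : 0 < q)
    (hL : ∀ (k : Type u) [Field k] [NumberField k] (S : Finset (Pl k)), LamM k S d N q)
    (hUn : ∀ (k : Type u) [Field k] [NumberField k] (S : Finset (Pl k)) (i₀ : Fin q), UnitsM k S d N q i₀)
    (I : Set (MvPolynomial (Fin (N + 1)) k₀)) (hI : Homog I) (hcore : LCore I q d)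
    (h : ∀ Φ : MvPolynomial (Fin q × Fin (N + 1)) k₀, Φ ≠ 0 → ∀ m : ℕ, Nonempty (BadM d I Φ (1 / ((m : ℝ) + 1)))) :
    False := by
  classical
  set J := nonZeroDivisors (MvPolynomial (Fin q × Fin (N + 1)) k₀) × Multiplicative ℕ with hJ
  obtain ⟨W, hW⟩ := exists_ultra J
  have B : ∀ i : J, BadM d I (i.1.1 : MvPolynomial (Fin q × Fin (N + 1)) k₀) (1 / (((Multiplicative.toAdd i.2 : ℕ) : ℝ) + 1)) :=
    fun i => (h i.1.1 (nonZeroDivisors.ne_zero i.1.2) (Multiplicative.toAdd i.2)).some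
  obtain ⟨s, hs⟩ := glueM hE (k₀ := k₀) W (fun i => (B i).k) d I hI (fun i => (B i).ℓ) ⟨0, hq0⟩ (fun i => (B i).S)
    (fun i => hL _ _) (fun i => hUn _ _ _)
    (fun i => 1 / (((Multiplicative.toAdd i.2 : ℕ) : ℝ) + 1)) (fun i => by positivity)
    (fun i => by
      rw [div_le_one (by positivity)]
      have : (0 : ℝ) ≤ ((Multiplicative.toAdd i.2 : ℕ) : ℝ) := Nat.cast_nonneg _
      linarith)
    (by
      intro η hη
      obtain ⟨m, hm⟩ := exists_nat_gt (1 / η)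
      filter_upwards [hW (1, Multiplicative.ofAdd m)] with i hi
      obtain ⟨g, hg⟩ := hi
      have h1 : i.2 = Multiplicative.ofAdd m * g.2 := congrArg Prod.snd hg
      have h2 : (m : ℝ) ≤ ((Multiplicative.toAdd i.2 : ℕ) : ℝ) := by
        rw [h1, toAdd_mul, toAdd_ofAdd]
        push_cast
        have : (0 : ℝ) ≤ ((Multiplicative.toAdd g.2 : ℕ) : ℝ) := Nat.cast_nonneg _
        linarith
      rw [div_le_iff₀ (by positivity)]
      rw [div_lt_iff₀ hη] at hm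
      nlinarith)
    (fun i => (B i).y) (fun i => (B i).hyI) (fun i => (B i).hyd) (fun i => (B i).hyD) (fun i => (B i).hyN)
  refine no_sit hq0 I hcore s ?_
  rw [algebraicIndependent_iff]
  intro f hf
  by_contra hf0
  refine hs f ((ev_iff _ _).2 ?_) hf
  filter_upwards [hW (⟨f, mem_nonZeroDivisors_of_ne_zero hf0⟩, 1)] with i hi
  obtain ⟨g, hg⟩ := hi
  refine Eventually.of_forall fun j => ?_
  intro h0
  apply (B i).hℓ j
  have h1 : (i.1.1 : MvPolynomial (Fin q × Fin (N + 1)) k₀) = f * g.1.1 := congrArg (fun j : J => j.1.1) hg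
  have h2 := congrArg (aeval fun p : Fin q × Fin (N + 1) => (B i).ℓ j p.1 p.2) h1
  rw [map_mul, h0, zero_mul] at h2
  exact h2

theorem main_linM (hE : ∀ r, ∃ ε : ℝ, 0 < ε ∧ CoreE.{u} r ε) {k₀ : Type u} [Field k₀] {N r q : ℕ} (hq0 : 0 < q)
    (hL : ∀ (k : Type u) [Field k] [NumberField k] (S : Finset (Pl k)) (d : ℕ), LamM k S d N q)
    (hUn : ∀ (k : Type u) [Field k] [NumberField k] (S : Finset (Pl k)) (i₀ : Fin q) (d : ℕ), UnitsM k S d N q i₀)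
    (I : Set (MvPolynomial (Fin (N + 1)) k₀)) (hI : Homog I) (hcore : ∀ d, 1 ≤ d → d ≤ r → LCore I q d) :
    ∃ Φ : MvPolynomial (Fin q × Fin (N + 1)) k₀, Φ ≠ 0 ∧ ∃ δ : ℝ, 0 < δ ∧
      ∀ (k : Type u) [Field k] [NumberField k] [Algebra k₀ k] (S : Finset (Pl k)), ∃ C : ℝ, 0 ≤ C ∧
        ∀ ℓ : Fin q → Fin (N + 1) → k, aeval (fun p : Fin q × Fin (N + 1) => ℓ p.1 p.2) Φ ≠ 0 →
          ∀ y : Fin N → AlgebraicClosure k,
            (∀ f ∈ I, aeval (Fin.cons 1 y : Fin (N + 1) → AlgebraicClosure k) f = 0) → VZ.dg y ≤ r →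
            (∀ i, ∑ j, algebraMap k (VZ.fld y) (ℓ i j) * VZ.crd y j ≠ 0) →
            VZ.lam ℓ S y ≤ (q - δ) * VZ.hgt y + C * (1 + hF ℓ) := by
  classical
  have hex : ∀ d : ℕ, ∃ Φ : MvPolynomial (Fin q × Fin (N + 1)) k₀, Φ ≠ 0 ∧ ∃ δ : ℝ, 0 < δ ∧ (1 ≤ d → d ≤ r →
      ∀ (k : Type u) [Field k] [NumberField k] [Algebra k₀ k] (S : Finset (Pl k)), ∃ C : ℝ, 0 ≤ C ∧
        ∀ ℓ : Fin q → Fin (N + 1) → k, aeval (fun p : Fin q × Fin (N + 1) => ℓ p.1 p.2) Φ ≠ 0 →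
          ∀ y : Fin N → AlgebraicClosure k,
            (∀ f ∈ I, aeval (Fin.cons 1 y : Fin (N + 1) → AlgebraicClosure k) f = 0) → VZ.dg y = d →
            (∀ i, ∑ j, algebraMap k (VZ.fld y) (ℓ i j) * VZ.crd y j ≠ 0) →
            VZ.lam ℓ S y ≤ (q - δ) * VZ.hgt y + C * (1 + hF ℓ)) := by
    intro d
    by_cases hd : 1 ≤ d ∧ d ≤ r
    · by_contra hcon
      refine badM_false hE hq0 (fun k _ _ S => hL k S d) (fun k _ _ S i₀ => hUn k S i₀ d) I hI (hcore d hd.1 hd.2)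
        fun Φ hΦ m => ?_
      by_contra hB
      refine hcon ⟨Φ, hΦ, 1 / ((m : ℝ) + 1), by positivity, fun _ _ k _ _ _ S => ?_⟩
      by_contra hS
      push Not at hS
      choose ℓ hℓ y h1 h2 h3 h4 using fun j : ℕ => hS j (Nat.cast_nonneg j)
      exact hB ⟨⟨k, ℓ, hℓ, S, y, h1, h2, h3, h4⟩⟩
    · exact ⟨1, one_ne_zero, 1, one_pos, fun h1 h2 => absurd ⟨h1, h2⟩ hd⟩
  choose Φ hΦ0 δ hδ h using hex
  have hne : (Finset.range (r + 1)).Nonempty := ⟨0, Finset.mem_range.2 (by omega)⟩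
  refine ⟨∏ d ∈ Finset.range (r + 1), Φ d, Finset.prod_ne_zero_iff.2 fun d _ => hΦ0 d,
    (Finset.range (r + 1)).inf' hne δ, (Finset.lt_inf'_iff hne).2 fun d _ => hδ d, ?_⟩
  intro k _ _ _ S
  have hdeg : ∀ d : ℕ, ∃ C : ℝ, 0 ≤ C ∧ (1 ≤ d → d ≤ r → ∀ ℓ : Fin q → Fin (N + 1) → k,
      aeval (fun p : Fin q × Fin (N + 1) => ℓ p.1 p.2) (Φ d) ≠ 0 → ∀ y : Fin N → AlgebraicClosure k,
      (∀ f ∈ I, aeval (Fin.cons 1 y : Fin (N + 1) → AlgebraicClosure k) f = 0) → VZ.dg y = d →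
      (∀ i, ∑ j, algebraMap k (VZ.fld y) (ℓ i j) * VZ.crd y j ≠ 0) →
      VZ.lam ℓ S y ≤ (q - δ d) * VZ.hgt y + C * (1 + hF ℓ)) := by
    intro d
    by_cases hd : 1 ≤ d ∧ d ≤ r
    · obtain ⟨C, hC0, hC⟩ := h d hd.1 hd.2 k S
      exact ⟨C, hC0, fun _ _ => hC⟩
    · exact ⟨0, le_rfl, fun h1 h2 => absurd ⟨h1, h2⟩ hd⟩
  choose C hC0 hC using hdeg
  refine ⟨(Finset.range (r + 1)).sup' hne C, (hC0 0).trans (Finset.le_sup' C (Finset.mem_range.2 (by omega))),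
    fun ℓ hℓ y hyI hyr hyD => ?_⟩
  rw [map_prod, Finset.prod_ne_zero_iff] at hℓ
  have hmem : VZ.dg y ∈ Finset.range (r + 1) := Finset.mem_range.2 (by omega)
  have hfd : FiniteDimensional k (VZ.fld y) :=
    finiteDimensional_adjoin fun x _ => Algebra.IsIntegral.isIntegral x
  have hpos : 0 < VZ.dg y := Module.finrank_pos
  have h1 := hC (VZ.dg y) hpos hyr ℓ (hℓ _ hmem) y hyI rfl hyD
  have h2 := mul_le_mul_of_nonneg_right (Finset.inf'_le δ hmem) (hgt_nonneg y)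
  have h3 := mul_le_mul_of_nonneg_right (Finset.le_sup' C hmem) (add_nonneg zero_le_one (hF_nonneg ℓ))
  linarith

end Pool.Agent.UD
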