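import Pool.Agent.Helper64.UD.Lin
import Pool.Agent.Helper64.PC.Main
import Pool.Agent.Helper77.AU.CoreE

/-!
# UD: sections of degree `d`, projective coordinates, with `δ` independent of the number field, the sections and the places
-/

set_option autoImplicit false

namespace Pool.Agent.UD

open NumberField IntermediateField Pool.Agent.Helper64.Vojta Pool.Agent.GS Pool.Agent.PC MvPolynomial

universe u

theorem coreE_all (r : ℕ) : ∃ ε : ℝ, 0 < ε ∧ CoreE.{u} r ε := by
  rcases Nat.eq_zero_or_pos r with rfl | hr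
  · exact ⟨1, one_pos, fun K _ _ U S y i0 => i0.elim0⟩
  · refine ⟨1 / (8 * r * (r + 1)), by positivity, ?_⟩
    intro K _ _ U S y i0 h1 h2 b hb h3 h4
    refine Pool.Agent.Helper77.AU.core1e U S y i0 h1 _ ?_ h2 b hb h3 h4
    have : (8 * (r : ℝ) * (r + 1)) ≠ 0 := by positivity
    rw [one_div, inv_mul_cancel₀ this]

theorem mainU {k₀ : Type u} [Field k₀] [CharZero k₀] {N n r q d : ℕ} (hd : 1 ≤ d) (hq0 : 0 < q)
    (hcore : ∀ r', 1 ≤ r' → r' ≤ r → Core.{u} N n q r' d)
    (I : Set (MvPolynomial (Fin (N + 1)) k₀)) (hI : Homog I) (hD : Dim k₀ I n) :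
    ∃ Φ : MvPolynomial (Fin q × Sym (Fin (N + 1)) d) k₀, Φ ≠ 0 ∧ ∃ δ : ℝ, 0 < δ ∧
      ∀ (k : Type u) [Field k] [NumberField k] [Algebra k₀ k] (g : Fin q → Sym (Fin (N + 1)) d → k),
        aeval (fun p : Fin q × Sym (Fin (N + 1)) d => g p.1 p.2) Φ ≠ 0 → ∀ S : Finset (Pl k), ∃ C : ℝ,
            ∀ x : Fin (N + 1) → AlgebraicClosure k, (∃ j, x j = 1) → (∀ f ∈ I, aeval x f = 0) → Chart.dg x ≤ r →
              (∀ i, val (g i) x ≠ 0) → ∑ ν ∈ S, ∑ i, lam (g i) ν x ≤ (q * d - δ) * Chart.hgt x + C := by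
  classical
  obtain ⟨c, rfl⟩ : ∃ c, d = c + 1 := ⟨d - 1, by omega⟩
  obtain ⟨M, hM⟩ := exists_enum N c
  choose e he using hM
  choose Φ hΦ δ hδ h using fun j : Fin (N + 1) => main_linU coreE_all (r := r) hq0 (vI I (e j)) (homog_vI I hI (e j))
    (fun r' h1 h2 => core_vI hq0 (hcore r' h1 h2) I hI hD (e j))
  have hinj : ∀ j : Fin (N + 1), Function.Injective fun p : Fin q × Fin (M + 1) => (p.1, e j p.2) := by
    intro j p p' hp
    rw [Prod.mk.injEq] at hp
    exact Prod.ext hp.1 ((e j).injective hp.2)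
  have hne : (Finset.univ : Finset (Fin (N + 1))).Nonempty := ⟨0, Finset.mem_univ 0⟩
  refine ⟨∏ j, rename (fun p : Fin q × Fin (M + 1) => (p.1, e j p.2)) (Φ j),
    Finset.prod_ne_zero_iff.2 fun j _ h0 => hΦ j ?_, Finset.univ.inf' hne fun j => δ j * (c + 1 : ℕ),
    (Finset.lt_inf'_iff hne).2 fun j _ => mul_pos (hδ j) (by positivity), fun k _ _ _ g hg S => ?_⟩
  · rw [← map_zero (rename fun p : Fin q × Fin (M + 1) => (p.1, e j p.2))] at h0
    exact rename_injective _ (hinj j) h0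
  · rw [map_prod, Finset.prod_ne_zero_iff] at hg
    have h1 : ∀ j : Fin (N + 1), ∃ C : ℝ,
        ∀ x : Fin (N + 1) → AlgebraicClosure k, x j = 1 → (∀ f ∈ I, aeval x f = 0) → Chart.dg x ≤ r →
          (∀ i, val (g i) x ≠ 0) →
          ∑ ν ∈ S, ∑ i, lam (g i) ν x ≤ (q * (c + 1 : ℕ) - δ j * (c + 1 : ℕ)) * Chart.hgt x + C := by
      intro j
      have h2 := hg j (Finset.mem_univ j)
      rw [aeval_rename] at h2
      obtain ⟨C, hC⟩ := h j k (fun i a => g i (e j a)) h2 S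
      refine ⟨C, fun x hx hX hd hD => ?_⟩
      have h3 := hC (vaff (e j) x) ?_ ?_ ?_
      · rw [lam_vaff (e j) x j hx (he j), hgt_vaff (e j) x j hx (he j)] at h3
        refine h3.trans (le_of_eq ?_)
        ring
      · rw [cons_vaff (e j) x j hx (he j)]
        exact onX_vI_of I hI (e j) x hX
      · rw [dg_vaff (e j) x j hx (he j)]
        exact hd
      · intro i h0
        exact hD i ((val_vaff (e j) x j hx (he j) (g i)).1 h0)
    choose C hC using h1
    refine ⟨Finset.univ.sup' hne C, ?_⟩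
    rintro x ⟨j, hj⟩ hX hd hDD
    refine (hC j x hj hX hd hDD).trans (add_le_add (mul_le_mul_of_nonneg_right ?_ ?_) (Finset.le_sup' C (Finset.mem_univ j)))
    · have := Finset.inf'_le (fun j => δ j * ((c + 1 : ℕ) : ℝ)) (Finset.mem_univ j)
      linarith
    · unfold Chart.hgt
      exact div_nonneg (Height.logHeight_nonneg _) (Nat.cast_nonneg _)

end Pool.Agent.UD
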