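import Pool.Agent.Helper64.UD.LinM
import Pool.Agent.Helper64.UD.UnitsM
import Pool.Agent.Helper64.PC.Main
import Pool.Agent.Helper64.UD.Main

/-!
# UD with moving forms: sections of degree `d`, projective coordinates
-/

set_option autoImplicit false

namespace Pool.Agent.UD

open NumberField IntermediateField Pool.Agent.Helper64.Vojta Pool.Agent.GS Pool.Agent.PC MvPolynomial

universe u

theorem hF_comp {k : Type u} [Field k] [NumberField k] {q : ℕ} {V V' : Type*} [Fintype V] [Fintype V'] (e : V ≃ V')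
    (g : Fin q → V' → k) : hF (fun i a => g i (e a)) = hF g := by
  unfold hF
  exact Finset.sum_congr rfl fun i _ => Equiv.sum_comp e fun a => Height.logHeight₁ (g i a)

theorem mainM {k₀ : Type u} [Field k₀] [CharZero k₀] {N n r q d : ℕ} (hd : 1 ≤ d) (hq0 : 0 < q)
    (hcore : ∀ r', 1 ≤ r' → r' ≤ r → Core.{u} N n q r' d)
    (I : Set (MvPolynomial (Fin (N + 1)) k₀)) (hI : Homog I) (hD : Dim k₀ I n) :
    ∃ Φ : MvPolynomial (Fin q × Sym (Fin (N + 1)) d) k₀, Φ ≠ 0 ∧ ∃ δ : ℝ, 0 < δ ∧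
      ∀ (k : Type u) [Field k] [NumberField k] [Algebra k₀ k] (S : Finset (Pl k)), ∃ C : ℝ, 0 ≤ C ∧
        ∀ g : Fin q → Sym (Fin (N + 1)) d → k, aeval (fun p : Fin q × Sym (Fin (N + 1)) d => g p.1 p.2) Φ ≠ 0 →
            ∀ x : Fin (N + 1) → AlgebraicClosure k, (∃ j, x j = 1) → (∀ f ∈ I, aeval x f = 0) → Chart.dg x ≤ r →
              (∀ i, val (g i) x ≠ 0) →
                ∑ ν ∈ S, ∑ i, lam (g i) ν x ≤ (q * d - δ) * Chart.hgt x + C * (1 + hF g) := by
  classical
  obtain ⟨c, rfl⟩ : ∃ c, d = c + 1 := ⟨d - 1, by omega⟩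
  obtain ⟨M, hM⟩ := exists_enum N c
  choose e he using hM
  choose Φ hΦ δ hδ h using fun j : Fin (N + 1) => main_linM coreE_all (r := r) hq0
    (fun k _ _ S d => lam_le_m S d) (fun k _ _ S i₀ d => units_plus_m S d i₀) (vI I (e j)) (homog_vI I hI (e j))
    (fun r' h1 h2 => core_vI hq0 (hcore r' h1 h2) I hI hD (e j))
  have hinj : ∀ j : Fin (N + 1), Function.Injective fun p : Fin q × Fin (M + 1) => (p.1, e j p.2) := by
    intro j p p' hp
    rw [Prod.mk.injEq] at hp
    exact Prod.ext hp.1 ((e j).injective hp.2)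
  have hne : (Finset.univ : Finset (Fin (N + 1))).Nonempty := ⟨0, Finset.mem_univ 0⟩
  refine ⟨∏ j, rename (fun p : Fin q × Fin (M + 1) => (p.1, e j p.2)) (Φ j),
    Finset.prod_ne_zero_iff.2 fun j _ h0 => hΦ j ?_, Finset.univ.inf' hne fun j => δ j * (c + 1 : ℕ),
    (Finset.lt_inf'_iff hne).2 fun j _ => mul_pos (hδ j) (by positivity), fun k _ _ _ S => ?_⟩
  · rw [← map_zero (rename fun p : Fin q × Fin (M + 1) => (p.1, e j p.2))] at h0
    exact rename_injective _ (hinj j) h0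
  · have h1 : ∀ j : Fin (N + 1), ∃ C : ℝ, 0 ≤ C ∧ ∀ g : Fin q → Sym (Fin (N + 1)) (c + 1) → k,
        aeval (fun p : Fin q × Sym (Fin (N + 1)) (c + 1) => g p.1 p.2)
          (rename (fun p : Fin q × Fin (M + 1) => (p.1, e j p.2)) (Φ j)) ≠ 0 →
        ∀ x : Fin (N + 1) → AlgebraicClosure k, x j = 1 → (∀ f ∈ I, aeval x f = 0) → Chart.dg x ≤ r →
          (∀ i, val (g i) x ≠ 0) →
          ∑ ν ∈ S, ∑ i, lam (g i) ν x ≤ (q * (c + 1 : ℕ) - δ j * (c + 1 : ℕ)) * Chart.hgt x + C * (1 + hF g) := by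
      intro j
      obtain ⟨C, hC0, hC⟩ := h j k S
      refine ⟨C, hC0, fun g hg x hx hX hd hD => ?_⟩
      rw [aeval_rename] at hg
      have h3 := hC (fun i a => g i (e j a)) hg (vaff (e j) x) ?_ ?_ ?_
      · rw [lam_vaff (e j) x j hx (he j), hgt_vaff (e j) x j hx (he j), hF_comp] at h3
        refine h3.trans (le_of_eq ?_)
        ring
      · rw [cons_vaff (e j) x j hx (he j)]
        exact onX_vI_of I hI (e j) x hX
      · rw [dg_vaff (e j) x j hx (he j)]
        exact hd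
      · intro i h0
        exact hD i ((val_vaff (e j) x j hx (he j) (g i)).1 h0)
    choose C hC0 hC using h1
    refine ⟨Finset.univ.sup' hne C, (hC0 0).trans (Finset.le_sup' C (Finset.mem_univ 0)), ?_⟩
    rintro g hg x ⟨j, hj⟩ hX hd hDD
    rw [map_prod, Finset.prod_ne_zero_iff] at hg
    refine (hC j g (hg j (Finset.mem_univ j)) x hj hX hd hDD).trans (add_le_add (mul_le_mul_of_nonneg_right ?_ ?_)
      (mul_le_mul_of_nonneg_right (Finset.le_sup' C (Finset.mem_univ j)) (add_nonneg zero_le_one (hF_nonneg g))))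
    · have := Finset.inf'_le (fun j => δ j * ((c + 1 : ℕ) : ℝ)) (Finset.mem_univ j)
      linarith
    · unfold Chart.hgt
      exact div_nonneg (Height.logHeight_nonneg _) (Nat.cast_nonneg _)

end Pool.Agent.UD
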